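import Mathlib

/-! Lagrangians of symmetric ternary relations: optimal weightings of minimal support. -/

set_option autoImplicit false

open scoped Classical

namespace Pool.Agent.H31Jump

variable {V : Type*} [Fintype V]

/-- The trilinear form of a ternary relation. -/
noncomputable def Q3 (g : V → V → V → Prop) (x y z : V → ℝ) : ℝ :=
  ∑ a, ∑ b, ∑ c, (if g a b c then x a * y b * z c else 0)

/-- Full symmetry of a ternary relation. -/
def Sym3 (g : V → V → V → Prop) : Prop :=
  (∀ a b c, g a b c → g b a c) ∧ (∀ a b c, g a b c → g a c b)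

theorem Q3_swap12 {g : V → V → V → Prop} (hg : Sym3 g) (x y z : V → ℝ) :
    Q3 g x y z = Q3 g y x z := by
  unfold Q3
  rw [Finset.sum_comm]
  refine Finset.sum_congr rfl fun b _ => Finset.sum_congr rfl fun a _ =>
    Finset.sum_congr rfl fun c _ => ?_
  have : g a b c ↔ g b a c := ⟨hg.1 a b c, hg.1 b a c⟩
  by_cases h : g a b c
  · rw [if_pos h, if_pos (this.mp h)]; ring
  · rw [if_neg h, if_neg (fun h' => h (this.mpr h'))]

theorem Q3_swap23 {g : V → V → V → Prop} (hg : Sym3 g) (x y z : V → ℝ) :
    Q3 g x y z = Q3 g x z y := by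
  unfold Q3
  refine Finset.sum_congr rfl fun a _ => ?_
  rw [Finset.sum_comm]
  refine Finset.sum_congr rfl fun c _ => Finset.sum_congr rfl fun b _ => ?_
  have : g a b c ↔ g a c b := ⟨hg.2 a b c, hg.2 a c b⟩
  by_cases h : g a b c
  · rw [if_pos h, if_pos (this.mp h)]; ring
  · rw [if_neg h, if_neg (fun h' => h (this.mpr h'))]

theorem Q3_add_smul_left (g : V → V → V → Prop) (x d y z : V → ℝ) (t : ℝ) :
    Q3 g (fun v => x v + t * d v) y z = Q3 g x y z + t * Q3 g d y z := by
  unfold Q3
  simp only [Finset.mul_sum]
  rw [← Finset.sum_add_distrib]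
  refine Finset.sum_congr rfl fun a _ => ?_
  rw [← Finset.sum_add_distrib]
  refine Finset.sum_congr rfl fun b _ => ?_
  rw [← Finset.sum_add_distrib]
  refine Finset.sum_congr rfl fun c _ => ?_
  split_ifs
  · ring
  · ring

theorem Q3_expand {g : V → V → V → Prop} (hg : Sym3 g) (x d : V → ℝ) (t : ℝ) :
    Q3 g (fun v => x v + t * d v) (fun v => x v + t * d v) (fun v => x v + t * d v) =
      Q3 g x x x + 3 * t * Q3 g x x d + 3 * t ^ 2 * Q3 g x d d + t ^ 3 * Q3 g d d d := by
  set y := (fun v => x v + t * d v) with hy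
  have e1 : ∀ u v : V → ℝ, Q3 g y u v = Q3 g x u v + t * Q3 g d u v :=
    fun u v => Q3_add_smul_left g x d u v t
  have e2 : ∀ u v : V → ℝ, Q3 g u y v = Q3 g u x v + t * Q3 g u d v := by
    intro u v
    rw [Q3_swap12 hg u y v, e1, Q3_swap12 hg x u v, Q3_swap12 hg d u v]
  have e3 : ∀ u v : V → ℝ, Q3 g u v y = Q3 g u v x + t * Q3 g u v d := by
    intro u v
    rw [Q3_swap23 hg u v y, e2, Q3_swap23 hg u x v, Q3_swap23 hg u d v]
  rw [e1, e2, e2, e3, e3, e3, e3, Q3_swap12 hg d x x, Q3_swap23 hg x d x,
    Q3_swap12 hg d x d, Q3_swap23 hg d d x, Q3_swap12 hg d x d]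
  ring

/-- `x` is a probability weighting. -/
def IsW (x : V → ℝ) : Prop := (∀ v, 0 ≤ x v) ∧ ∑ v, x v = 1

/-- The cubic form. -/
noncomputable def Qf (g : V → V → V → Prop) (x : V → ℝ) : ℝ := Q3 g x x x

/-- The support. -/
noncomputable def supp (x : V → ℝ) : Finset V := Finset.univ.filter fun v => x v ≠ 0

/-- An optimal weighting of minimal support. -/
def IsOpt (g : V → V → V → Prop) (x : V → ℝ) : Prop :=
  IsW x ∧ (∀ y, IsW y → Qf g y ≤ Qf g x) ∧
    ∀ y, IsW y → Qf g y = Qf g x → (supp x).card ≤ (supp y).card

theorem continuous_Qf (g : V → V → V → Prop) : Continuous (Qf g) := by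
  unfold Qf Q3
  refine continuous_finsetSum _ fun a _ => continuous_finsetSum _ fun b _ =>
    continuous_finsetSum _ fun c _ => ?_
  split_ifs
  · exact ((continuous_apply a).mul (continuous_apply b)).mul (continuous_apply c)
  · exact continuous_const

theorem exists_opt [Nonempty V] (g : V → V → V → Prop) : ∃ x, IsOpt g x := by
  have hcomp : IsCompact (stdSimplex ℝ V) := isCompact_stdSimplex ℝ V
  have hne : (stdSimplex ℝ V).Nonempty := by
    obtain ⟨v⟩ := (inferInstance : Nonempty V)
    exact ⟨_, single_mem_stdSimplex ℝ v⟩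
  obtain ⟨x0, hx0, hmax⟩ := hcomp.exists_isMaxOn hne (continuous_Qf g).continuousOn
  have hW : ∀ y : V → ℝ, IsW y ↔ y ∈ stdSimplex ℝ V := by
    intro y
    unfold IsW stdSimplex
    rfl
  have hmax' : ∀ y, IsW y → Qf g y ≤ Qf g x0 := fun y hy => hmax ((hW y).mp hy)
  let P : ℕ → Prop := fun k => ∃ x, IsW x ∧ Qf g x = Qf g x0 ∧ (supp x).card = k
  have hP : ∃ k, P k := ⟨_, x0, (hW x0).mpr hx0, rfl, rfl⟩
  obtain ⟨x, h1, h2, h3⟩ := Nat.find_spec hP
  refine ⟨x, h1, ?_, ?_⟩
  · intro y hy
    rw [h2]
    exact hmax' y hy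
  · intro y hy hQ
    rw [h3]
    exact Nat.find_min' hP ⟨y, hy, hQ.trans h2, rfl⟩

/-- No direction inside the support along which the form is affine. -/
theorem no_affine {g : V → V → V → Prop} (hg : Sym3 g) {x : V → ℝ} (hx : IsOpt g x)
    {d : V → ℝ} (hd : ∃ v, d v ≠ 0) (hsum : ∑ v, d v = 0) (hs : ∀ v, x v = 0 → d v = 0)
    (h2 : Q3 g x d d = 0) (h3 : Q3 g d d d = 0) : False := by
  -- main step for a direction with nonnegative slope
  have main : ∀ d : V → ℝ, (∃ v, d v < 0) → ∑ v, d v = 0 → (∀ v, x v = 0 → d v = 0) →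
      Q3 g x d d = 0 → Q3 g d d d = 0 → 0 ≤ Q3 g x x d → False := by
    intro d hd hsum hs h2 h3 h0
    obtain ⟨hW, hmax, hmin⟩ := hx
    let N : Finset V := Finset.univ.filter fun v => d v < 0
    have hN : N.Nonempty := by
      obtain ⟨v, hv⟩ := hd
      exact ⟨v, by simp [N, hv]⟩
    obtain ⟨v0, hv0, hmin0⟩ := Finset.exists_min_image N (fun v => x v / (-d v)) hN
    have hdv0 : d v0 < 0 := by
      have := hv0
      simp only [N, Finset.mem_filter, Finset.mem_univ, true_and] at this
      exact this
    set t : ℝ := x v0 / (-d v0) with ht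
    have ht0 : 0 ≤ t := div_nonneg (hW.1 v0) (by linarith)
    let y : V → ℝ := fun v => x v + t * d v
    have hyW : IsW y := by
      refine ⟨?_, ?_⟩
      · intro v
        by_cases hv : d v < 0
        · have h4 := hmin0 v (by simp [N, hv])
          have h5 : t * (-d v) ≤ x v := by
            rw [← le_div_iff₀ (by linarith)]
            exact h4
          simp only [y]
          linarith
        · have := mul_nonneg ht0 (not_lt.mp hv)
          have := hW.1 v
          simp only [y]
          linarith
      · simp only [y]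
        rw [Finset.sum_add_distrib, ← Finset.mul_sum, hsum, hW.2]
        ring
    have hQ : Qf g y = Qf g x + 3 * t * Q3 g x x d := by
      have := Q3_expand hg x d t
      unfold Qf
      rw [this, h2, h3]
      ring
    have hQ2 : Qf g y = Qf g x := by
      apply le_antisymm (hmax y hyW)
      rw [hQ]
      have := mul_nonneg (mul_nonneg (by norm_num : (0:ℝ) ≤ 3) ht0) h0
      linarith
    have hc := hmin y hyW hQ2
    have hsub : supp y ⊆ (supp x).erase v0 := by
      intro v hv
      simp only [supp, Finset.mem_filter, Finset.mem_univ, true_and, Finset.mem_erase] at hv ⊢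
      refine ⟨?_, ?_⟩
      · rintro rfl
        apply hv
        simp only [y, ht]
        have h9 : x v / (-d v) * (-d v) = x v := div_mul_cancel₀ _ (by linarith)
        linarith
      · intro h
        apply hv
        simp only [y]
        rw [h, hs v h]
        ring
    have hv0x : v0 ∈ supp x := by
      simp only [supp, Finset.mem_filter, Finset.mem_univ, true_and]
      intro h
      have := hs v0 h
      linarith
    have h6 := Finset.card_le_card hsub
    rw [Finset.card_erase_of_mem hv0x] at h6
    have h7 : 0 < (supp x).card := Finset.card_pos.mpr ⟨v0, hv0x⟩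
    omega
  have hneg : ∃ v, d v < 0 := by
    by_contra hcon
    push Not at hcon
    obtain ⟨v, hv⟩ := hd
    have := (Finset.sum_eq_zero_iff_of_nonneg (fun v _ => hcon v)).mp hsum v (Finset.mem_univ v)
    exact hv this
  have hpos : ∃ v, 0 < d v := by
    by_contra hcon
    push Not at hcon
    obtain ⟨v, hv⟩ := hd
    have := (Finset.sum_eq_zero_iff_of_nonpos (fun v _ => hcon v)).mp hsum v (Finset.mem_univ v)
    exact hv this
  rcases le_total 0 (Q3 g x x d) with h0 | h0
  · exact main d hneg hsum hs h2 h3 h0
  · have hneg1 : ∀ u v : V → ℝ, Q3 g (fun v => -d v) u v = - Q3 g d u v := by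
      intro u v
      unfold Q3
      simp only [← Finset.sum_neg_distrib]
      refine Finset.sum_congr rfl fun a _ => Finset.sum_congr rfl fun b _ =>
        Finset.sum_congr rfl fun c _ => ?_
      split_ifs
      · ring
      · ring
    have hneg2 : ∀ u v : V → ℝ, Q3 g u (fun v => -d v) v = - Q3 g u d v := by
      intro u v
      rw [Q3_swap12 hg, hneg1, Q3_swap12 hg]
    have hneg3 : ∀ u v : V → ℝ, Q3 g u v (fun v => -d v) = - Q3 g u v d := by
      intro u v
      rw [Q3_swap23 hg, hneg2, Q3_swap23 hg]
    refine main (fun v => -d v) ?_ ?_ ?_ ?_ ?_ ?_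
    · obtain ⟨v, hv⟩ := hpos
      exact ⟨v, by linarith⟩
    · rw [Finset.sum_neg_distrib, hsum, neg_zero]
    · intro v hv
      rw [hs v hv, neg_zero]
    · rw [hneg2, hneg3, h2]; ring
    · rw [hneg1, hneg2, hneg3, h3]; ring
    · rw [hneg3]; linarith

/-- Pairs of the support of an optimal weighting are covered. -/
theorem opt_cover {g : V → V → V → Prop} (hg : Sym3 g) (hirr : ∀ a b, ¬ g a a b) {x : V → ℝ}
    (hx : IsOpt g x) {i j : V} (hi : x i ≠ 0) (hj : x j ≠ 0) (hij : i ≠ j) :
    ∃ k, x k ≠ 0 ∧ g i j k := by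
  by_contra hcon
  push Not at hcon
  let d : V → ℝ := fun v => if v = i then 1 else if v = j then -1 else 0
  have hd0 : ∀ v, v ≠ i → v ≠ j → d v = 0 := by
    intro v h1 h2
    simp only [d]
    rw [if_neg h1, if_neg h2]
  refine no_affine hg hx (d := d) ⟨i, by simp [d]⟩ ?_ ?_ ?_ ?_
  · have : ∀ v, d v = (if v = i then (1:ℝ) else 0) + (if v = j then -1 else 0) := by
      intro v
      simp only [d]
      by_cases h1 : v = i
      · have h2 : v ≠ j := by rw [h1]; exact hij
        simp [h1, hij]
      · simp [h1]
    simp only [this, Finset.sum_add_distrib, Finset.sum_ite_eq', Finset.mem_univ, if_true]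
    norm_num
  · intro v hv
    apply hd0
    · rintro rfl; exact hi hv
    · rintro rfl; exact hj hv
  · unfold Q3
    refine Finset.sum_eq_zero fun a _ => Finset.sum_eq_zero fun b _ =>
      Finset.sum_eq_zero fun c _ => ?_
    by_cases hgabc : g a b c
    · rw [if_pos hgabc]
      by_cases hxa : x a = 0
      · rw [hxa]; ring
      · by_cases hb : b = i ∨ b = j
        · by_cases hc : c = i ∨ c = j
          · exfalso
            have h23 : ¬ b = c := by
              rintro rfl
              exact hirr b a (hg.1 _ _ _ (hg.2 _ _ _ (hg.1 _ _ _ hgabc)) |> fun h => by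
                exact hg.2 _ _ _ (hg.1 _ _ _ hgabc))
            have hgij : g i j a := by
              rcases hb with rfl | rfl
              · rcases hc with rfl | rfl
                · exact absurd rfl h23
                · exact hg.2 _ _ _ (hg.1 _ _ _ hgabc)
              · rcases hc with rfl | rfl
                · exact hg.1 _ _ _ (hg.2 _ _ _ (hg.1 _ _ _ hgabc))
                · exact absurd rfl h23
            exact hcon a hxa hgij
          · push Not at hc
            rw [hd0 c hc.1 hc.2]; ring
        · push Not at hb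
          rw [hd0 b hb.1 hb.2]; ring
    · rw [if_neg hgabc]
  · unfold Q3
    refine Finset.sum_eq_zero fun a _ => Finset.sum_eq_zero fun b _ =>
      Finset.sum_eq_zero fun c _ => ?_
    by_cases hgabc : g a b c
    · rw [if_pos hgabc]
      by_cases ha : a = i ∨ a = j
      · by_cases hb : b = i ∨ b = j
        · by_cases hc : c = i ∨ c = j
          · exfalso
            have h12 : a ≠ b := by
              rintro rfl
              exact hirr _ _ hgabc
            have h23 : b ≠ c := by
              rintro rfl
              exact hirr b a (hg.2 _ _ _ (hg.1 _ _ _ hgabc))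
            have h13 : a ≠ c := by
              rintro rfl
              exact hirr a b (hg.2 _ _ _ hgabc)
            rcases ha with rfl | rfl <;> rcases hb with rfl | rfl <;>
              rcases hc with rfl | rfl <;> simp_all
          · push Not at hc
            rw [hd0 c hc.1 hc.2]; ring
        · push Not at hb
          rw [hd0 b hb.1 hb.2]; ring
      · push Not at ha
        rw [hd0 a ha.1 ha.2]; ring
    · rw [if_neg hgabc]

end Pool.Agent.H31Jump
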