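import Pool.Agent.H31Jump.Start
import Pool.Agent.H31Jump.Lagr

/-! Cyclic triangles of a digraph, forbidden homomorphisms, reduction to tournaments. -/

set_option autoImplicit false

open scoped Classical

namespace Pool.Agent.H31Jump

/-- `a`, `b`, `c` are distinct and span a directed 3-cycle of `D`. -/
def cyc {V : Type*} (D : V → V → Prop) (a b c : V) : Prop :=
  a ≠ b ∧ b ≠ c ∧ a ≠ c ∧ ((D a b ∧ D b c ∧ D c a) ∨ (D b a ∧ D c b ∧ D a c))

theorem cyc_sym {V : Type*} (D : V → V → Prop) : Sym3 (cyc D) := by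
  constructor
  · rintro a b c ⟨h1, h2, h3, h4⟩
    exact ⟨h1.symm, h3, h2, by tauto⟩
  · rintro a b c ⟨h1, h2, h3, h4⟩
    exact ⟨h3, h2.symm, h1, by tauto⟩

theorem cyc_irr {V : Type*} (D : V → V → Prop) (a b : V) : ¬ cyc D a a b := fun h => h.1 rfl

/-- A homomorphism of a list of triples. -/
def IsHom {V : Type*} (g : V → V → V → Prop) {k : ℕ} (L : List (Fin k × Fin k × Fin k))
    (h : Fin k → V) : Prop := ∀ t ∈ L, g (h t.1) (h t.2.1) (h t.2.2)

/-- `K₄⁻`. -/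
def LK4 : List (Fin 4 × Fin 4 × Fin 4) := [(0, 1, 2), (0, 1, 3), (0, 2, 3)]

/-- `F₃,₂`. -/
def LF32 : List (Fin 5 × Fin 5 × Fin 5) := [(0, 1, 2), (0, 3, 4), (1, 3, 4), (2, 3, 4)]

/-- The tight cycle on five points. -/
def LC5 : List (Fin 5 × Fin 5 × Fin 5) :=
  [(0, 1, 3), (1, 2, 4), (2, 3, 0), (3, 4, 1), (4, 0, 2)]

/-- The cyclic triangles of the Paley tournament. -/
def LH7 : List (Fin 7 × Fin 7 × Fin 7) :=
  [(0, 1, 3), (1, 2, 4), (2, 3, 5), (3, 4, 6), (4, 5, 0), (5, 6, 1), (6, 0, 2),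
    (0, 2, 3), (1, 3, 4), (2, 4, 5), (3, 5, 6), (4, 6, 0), (5, 0, 1), (6, 1, 2)]

/-- None of the four forbidden configurations maps into `g`. -/
structure Free {V : Type*} (g : V → V → V → Prop) : Prop where
  k4 : ∀ h : Fin 4 → V, ¬ IsHom g LK4 h
  f32 : ∀ h : Fin 5 → V, ¬ IsHom g LF32 h
  c5 : ∀ h : Fin 5 → V, ¬ IsHom g LC5 h
  h7 : ∀ h : Fin 7 → V, ¬ IsHom g LH7 h

theorem hom_of_pat {V : Type*} {T : V → V → Prop} (irr : ∀ a, ¬ T a a) {N : ℕ}
    {pat : ℕ → ℕ → Bool} {F : ℕ → V}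
    (hF : ∀ i < N, ∀ j < N, (T (F i) (F j) ↔ pat i j = true))
    (L : List (Fin N × Fin N × Fin N))
    (hL : ∀ t ∈ L, pat t.1 t.2.1 = true ∧ pat t.2.1 t.2.2 = true ∧ pat t.2.2 t.1 = true) :
    IsHom (cyc T) L (fun i => F i) := by
  intro t ht
  obtain ⟨h1, h2, h3⟩ := hL t ht
  have e1 := (hF t.1 t.1.2 t.2.1 t.2.1.2).mpr h1
  have e2 := (hF t.2.1 t.2.1.2 t.2.2 t.2.2.2).mpr h2
  have e3 := (hF t.2.2 t.2.2.2 t.1 t.1.2).mpr h3
  have ne : ∀ {u v : V}, T u v → u ≠ v := by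
    rintro u v h rfl
    exact irr _ h
  exact ⟨ne e1, ne e2, (ne e3).symm, Or.inl ⟨e1, e2, e3⟩⟩

section Lost

variable {V : Type*} {D : V → V → Prop}

theorem cyc_mono {D' : V → V → Prop} (h : ∀ a b, D a b → D' a b) {a b c : V}
    (hc : cyc D a b c) : cyc D' a b c := by
  obtain ⟨h1, h2, h3, h4⟩ := hc
  refine ⟨h1, h2, h3, ?_⟩
  rcases h4 with ⟨a1, a2, a3⟩ | ⟨a1, a2, a3⟩
  · exact Or.inl ⟨h _ _ a1, h _ _ a2, h _ _ a3⟩
  · exact Or.inr ⟨h _ _ a1, h _ _ a2, h _ _ a3⟩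

/-- `D` with the arc `a → b` removed. -/
def del (D : V → V → Prop) (a b : V) : V → V → Prop := fun x y => D x y ∧ ¬ (x = a ∧ y = b)

theorem lost1 {a b x y : V} (hab : a ≠ b) (hbx : b ≠ x) (hax : a ≠ x)
    (h2 : D b x) (h3 : D x a) (hy : y = x)
    (hn : ¬ cyc (del D a b) a b x) :
    ∃ c, c ≠ a ∧ c ≠ b ∧ D b c ∧ D c a ∧ ¬ (D b a ∧ D a c ∧ D c b) := by
  subst hy
  refine ⟨y, hax.symm, hbx.symm, h2, h3, ?_⟩
  rintro ⟨e1, e2, e3⟩
  apply hn
  refine ⟨hab, hbx, hax, Or.inr ⟨⟨e1, fun h => hab h.2⟩, ⟨e3, fun h => hax h.1.symm⟩,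
    ⟨e2, fun h => hbx h.2.symm⟩⟩⟩

theorem lost2 {a b x y z : V} (hab : a ≠ b) (hxy : x ≠ y) (hyz : y ≠ z) (hxz : x ≠ z)
    (h1 : D x y) (h2 : D y z) (h3 : D z x) (hn : ¬ cyc (del D a b) x y z) :
    ∃ c, c ≠ a ∧ c ≠ b ∧ D b c ∧ D c a ∧ ¬ (D b a ∧ D a c ∧ D c b) := by
  have hs := cyc_sym (del D a b)
  by_cases e1 : x = a ∧ y = b
  · obtain ⟨rfl, rfl⟩ := e1
    exact lost1 hab hyz hxz h2 h3 rfl hn
  · by_cases e2 : y = a ∧ z = b
    · obtain ⟨rfl, rfl⟩ := e2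
      refine lost1 hab hxz.symm hxy.symm h3 h1 rfl (fun h => hn ?_)
      exact hs.1 _ _ _ (hs.2 _ _ _ h)
    · by_cases e3 : z = a ∧ x = b
      · obtain ⟨rfl, rfl⟩ := e3
        refine lost1 hab hxy hyz.symm h1 h2 rfl (fun h => hn ?_)
        exact hs.2 _ _ _ (hs.1 _ _ _ h)
      · exact absurd ⟨hxy, hyz, hxz, Or.inl ⟨⟨h1, e1⟩, ⟨h2, e2⟩, ⟨h3, e3⟩⟩⟩ hn

theorem lost {a b x y z : V} (hab : a ≠ b) (hc : cyc D x y z)
    (hn : ¬ cyc (del D a b) x y z) :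
    ∃ c, c ≠ a ∧ c ≠ b ∧ D b c ∧ D c a ∧ ¬ (D b a ∧ D a c ∧ D c b) := by
  obtain ⟨h1, h2, h3, h4⟩ := hc
  have hs := cyc_sym (del D a b)
  rcases h4 with ⟨a1, a2, a3⟩ | ⟨a1, a2, a3⟩
  · exact lost2 hab h1 h2 h3 a1 a2 a3 hn
  · refine lost2 hab h1.symm h3 h2 a1 a3 a2 (fun h => hn (hs.1 _ _ _ h))

end Lost

/-- On a covered set without `K₄⁻` the digraph can be replaced by a tournament. -/
theorem exists_tour {W : Type*} [Fintype W] (D : W → W → Prop)
    (hcov : ∀ a b, a ≠ b → ∃ c, cyc D a b c) (hfree : Free (cyc D)) :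
    ∃ T : W → W → Prop, (∀ a b c, cyc T a b c ↔ cyc D a b c) ∧ TourHyp T := by
  let P : ℕ → Prop := fun k => ∃ D' : W → W → Prop, (∀ a b c, cyc D' a b c ↔ cyc D a b c) ∧
    (∀ a, ¬ D' a a) ∧ ((Finset.univ : Finset (W × W)).filter fun p => D' p.1 p.2).card = k
  have hP : ∃ k, P k := by
    refine ⟨_, fun a b => D a b ∧ a ≠ b, ?_, ?_, rfl⟩
    · intro a b c
      constructor
      · exact cyc_mono fun a b h => h.1
      · rintro ⟨h1, h2, h3, h4⟩
        refine ⟨h1, h2, h3, ?_⟩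
        rcases h4 with ⟨a1, a2, a3⟩ | ⟨a1, a2, a3⟩
        · exact Or.inl ⟨⟨a1, h1⟩, ⟨a2, h2⟩, ⟨a3, h3.symm⟩⟩
        · exact Or.inr ⟨⟨a1, h1.symm⟩, ⟨a2, h2.symm⟩, ⟨a3, h3⟩⟩
    · intro a h
      exact h.2 rfl
  obtain ⟨T, hT, hirr, hcard⟩ := Nat.find_spec hP
  have hmin : ∀ a b, a ≠ b → T a b →
      ∃ c, c ≠ a ∧ c ≠ b ∧ T b c ∧ T c a ∧ ¬ (T b a ∧ T a c ∧ T c b) := by
    intro a b hab hTab
    by_contra hcon
    have h1 : P (((Finset.univ : Finset (W × W)).filter fun p => (del T a b) p.1 p.2).card) := by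
      refine ⟨del T a b, ?_, fun a h => hirr a h.1, rfl⟩
      intro x y z
      rw [← hT]
      constructor
      · exact cyc_mono fun a b h => h.1
      · intro h
        by_contra hn
        exact hcon (lost hab h hn)
    have h2 := Nat.find_min' hP h1
    rw [← hcard] at h2
    have h3 : ((Finset.univ : Finset (W × W)).filter fun p => (del T a b) p.1 p.2) ⊂
        ((Finset.univ : Finset (W × W)).filter fun p => T p.1 p.2) := by
      rw [Finset.ssubset_iff_of_subset]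
      · refine ⟨(a, b), by simp [hTab], ?_⟩
        simp [del]
      · intro p hp
        simp only [Finset.mem_filter, Finset.mem_univ, true_and, del] at hp ⊢
        exact hp.1
    have h4 := Finset.card_lt_card h3
    omega
  have hasym : ∀ a b, T a b → ¬ T b a := by
    intro a b hab hba
    have hne : a ≠ b := by
      rintro rfl
      exact hirr _ hab
    obtain ⟨c, hca, hcb, h1, h2, h3⟩ := hmin a b hne hab
    obtain ⟨d, hdb, hda, h4, h5, h6⟩ := hmin b a hne.symm hba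
    have hcd : c ≠ d := by
      rintro rfl
      exact h3 ⟨hba, h4, h5⟩
    have cabc : cyc T a b c := ⟨hne, hcb.symm, hca.symm, Or.inl ⟨hab, h1, h2⟩⟩
    have cabd : cyc T a b d := ⟨hne, hdb.symm, hda.symm, Or.inr ⟨hba, h5, h4⟩⟩
    obtain ⟨e, he⟩ := hcov c d hcd
    rw [← hT] at he
    have harc : T c d ∨ T d c := by
      rcases he.2.2.2 with h | h
      · exact Or.inl h.1
      · exact Or.inr h.1
    have hs := cyc_sym D
    rcases harc with h | h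
    · -- c → d → b → c
      have cbcd : cyc T b c d := ⟨hcb.symm, hcd, hdb.symm, Or.inl ⟨h1, h, h5⟩⟩
      apply hfree.k4 (![b, a, c, d])
      intro t ht
      simp only [LK4, List.mem_cons, List.mem_nil_iff, or_false] at ht
      rcases ht with rfl | rfl | rfl
      · exact hs.1 _ _ _ ((hT _ _ _).mp cabc)
      · exact hs.1 _ _ _ ((hT _ _ _).mp cabd)
      · exact (hT _ _ _).mp cbcd
    · -- d → c → a → d
      have cacd : cyc T a c d := ⟨hca.symm, hcd, hda.symm, Or.inr ⟨h2, h, h4⟩⟩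
      apply hfree.k4 (![a, b, c, d])
      intro t ht
      simp only [LK4, List.mem_cons, List.mem_nil_iff, or_false] at ht
      rcases ht with rfl | rfl | rfl
      · exact (hT _ _ _).mp cabc
      · exact (hT _ _ _).mp cabd
      · exact (hT _ _ _).mp cacd
  have hhom : ∀ {k : ℕ} (L : List (Fin k × Fin k × Fin k)) (h : Fin k → W),
      IsHom (cyc T) L h → IsHom (cyc D) L h := by
    intro k L h hh t ht
    exact (hT _ _ _).mp (hh t ht)
  refine ⟨T, hT, hirr, hasym, ?_, ?_, ?_, ?_, ?_⟩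
  · intro a b hab
    obtain ⟨c, hc⟩ := hcov a b hab
    rw [← hT] at hc
    rcases hc.2.2.2 with h | h
    · exact Or.inl h.1
    · exact Or.inr h.1
  · intro a b hab
    have hne : a ≠ b := by
      rintro rfl
      exact hirr _ hab
    obtain ⟨c, hc⟩ := hcov a b hne
    rw [← hT] at hc
    rcases hc.2.2.2 with h | h
    · exact ⟨c, h.2.1, h.2.2⟩
    · exact absurd h.1 (hasym _ _ hab)
  · intro F hF
    exact hfree.f32 _ (hhom _ _ (hom_of_pat hirr hF LF32 (by decide +kernel)))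
  · intro F hF
    exact hfree.c5 _ (hhom _ _ (hom_of_pat hirr hF LC5 (by decide +kernel)))
  · intro F hF
    exact hfree.h7 _ (hhom _ _ (hom_of_pat hirr hF LH7 (by decide +kernel)))

end Pool.Agent.H31Jump
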