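import Pool.Agent.H31Jump.Ord
import Pool.Agent.H31Jump.Cyc

/-! Blow-ups of configurations contain dense `t`-sets. -/

set_option autoImplicit false

namespace Pool.Agent.H31Jump

open Finset

/-- All orders of the triples of a list. -/
def symL {k : ℕ} (L : List (Fin k × Fin k × Fin k)) : Finset (Fin k × Fin k × Fin k) :=
  (L.flatMap fun p => [(p.1, p.2.1, p.2.2), (p.1, p.2.2, p.2.1), (p.2.1, p.1, p.2.2),
    (p.2.1, p.2.2, p.1), (p.2.2, p.1, p.2.1), (p.2.2, p.2.1, p.1)]).toFinset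

/-- A configuration with vertex weights. -/
structure Good {k : ℕ} (L : List (Fin k × Fin k × Fin k)) (w : Fin k → ℕ) : Prop where
  pos : ∀ i, 0 < w i
  cov : ∀ i j, i ≠ j → ∃ l, (i, j, l) ∈ symL L
  ne : ∀ p ∈ symL L, p.1 ≠ p.2.1 ∧ p.2.1 ≠ p.2.2 ∧ p.1 ≠ p.2.2

theorem good_edge : Good [((0 : Fin 3), (1 : Fin 3), (2 : Fin 3))] (fun _ => 1) :=
  ⟨by decide +kernel, by decide +kernel, by decide +kernel⟩

theorem good_K4 : Good LK4 ![3, 2, 2, 2] :=
  ⟨by decide +kernel, by decide +kernel, by decide +kernel⟩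

theorem good_F32 {w : Fin 5 → ℕ} (hw : ∀ i, 0 < w i) : Good LF32 w :=
  ⟨hw, by decide +kernel, by decide +kernel⟩

theorem good_C5 : Good LC5 (fun _ => 1) :=
  ⟨by decide +kernel, by decide +kernel, by decide +kernel⟩

theorem good_H7 : Good LH7 (fun _ => 1) :=
  ⟨by decide +kernel, by decide +kernel, by decide +kernel⟩

/-- Weighted number of ordered triples. -/
def wsum {k : ℕ} (L : List (Fin k × Fin k × Fin k)) (w : Fin k → ℕ) : ℕ :=
  ∑ p ∈ symL L, w p.1 * (w p.2.1 * w p.2.2)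

theorem wsum_edge : 2 * (∑ _i : Fin 3, 1) ^ 3 ≤
    9 * wsum [((0 : Fin 3), (1 : Fin 3), (2 : Fin 3))] (fun _ => 1) := by decide +kernel

theorem wsum_K4 : 24 * (∑ i, (![3, 2, 2, 2] : Fin 4 → ℕ) i) ^ 3 ≤
    100 * wsum LK4 ![3, 2, 2, 2] := by decide +kernel

theorem wsum_F32 : 23157 * (∑ i, (![34, 34, 34, 89, 89] : Fin 5 → ℕ) i) ^ 3 ≤
    100000 * wsum LF32 ![34, 34, 34, 89, 89] := by decide +kernel

theorem wsum_C5 : 24 * (∑ _i : Fin 5, 1) ^ 3 ≤ 100 * wsum LC5 (fun _ => 1) := by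
  decide +kernel

theorem wsum_H7 : 24 * (∑ _i : Fin 7, 1) ^ 3 ≤ 100 * wsum LH7 (fun _ => 1) := by
  decide +kernel

open scoped Classical

theorem hom_sym {V : Type*} {g : V → V → V → Prop} (hs : Sym3 g) {k : ℕ}
    {L : List (Fin k × Fin k × Fin k)} {h : Fin k → V} (hh : IsHom g L h) :
    ∀ p ∈ symL L, g (h p.1) (h p.2.1) (h p.2.2) := by
  intro p hp
  unfold symL at hp
  rw [List.mem_toFinset, List.mem_flatMap] at hp
  obtain ⟨q, hq, hp⟩ := hp
  have h1 := hh q hq
  simp only [List.mem_cons, List.mem_nil_iff, or_false] at hp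
  rcases hp with rfl | rfl | rfl | rfl | rfl | rfl
  · exact h1
  · exact hs.2 _ _ _ h1
  · exact hs.1 _ _ _ h1
  · exact hs.2 _ _ _ (hs.1 _ _ _ h1)
  · exact hs.1 _ _ _ (hs.2 _ _ _ h1)
  · exact hs.1 _ _ _ (hs.2 _ _ _ (hs.1 _ _ _ h1))

theorem hom_inj {V : Type*} {g : V → V → V → Prop} (hs : Sym3 g) (hirr : ∀ a b, ¬ g a a b)
    {k : ℕ} {L : List (Fin k × Fin k × Fin k)} {w : Fin k → ℕ} (hL : Good L w) {h : Fin k → V}
    (hh : IsHom g L h) : Function.Injective h := by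
  intro i j hij
  by_contra hne
  obtain ⟨l, hl⟩ := hL.cov i j hne
  have := hom_sym hs hh _ hl
  simp only at this
  rw [hij] at this
  exact hirr _ _ this

theorem blow {V : Type*} [Fintype V] [DecidableEq V] {H : Finset (Finset V)} {g : V → V → V → Prop}
    (hg : Desc H g) (hs : Sym3 g) (hirr : ∀ a b, ¬ g a a b) {k : ℕ} (hk : 0 < k)
    {L : List (Fin k × Fin k × Fin k)} {w : Fin k → ℕ} (hL : Good L w) {t : ℕ} (ht : 3 ≤ t)
    {B : Fin k → Finset V} (hB : ∀ i, w i * t ≤ (B i).card)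
    (hhom : ∀ u : Fin k → V, (∀ i, u i ∈ B i) → IsHom g L u) {γ : ℝ}
    (hγ : γ * (((∑ i, w i : ℕ)) : ℝ) ^ 3 ≤ (wsum L w : ℕ)) :
    ∃ S : Finset V, S.card = t ∧
      γ * ((t.choose 3 : ℕ) : ℝ) ≤ ((H.filter (fun e => e ⊆ S)).card : ℝ) := by
  choose U hU1 hU2 using fun i => exists_subset_card_eq (hB i)
  have hUne : ∀ i, (U i).Nonempty := by
    intro i
    rw [← card_pos, hU2]
    exact Nat.mul_pos (hL.pos i) (by omega)
  choose z hz using hUne
  have hdisj : ∀ i j, i ≠ j → Disjoint (U i) (U j) := by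
    intro i j hij
    rw [disjoint_left]
    intro a ha hb
    obtain ⟨l, hl⟩ := hL.cov i j hij
    let u : Fin k → V := fun m => if m = i ∨ m = j then a else z m
    have hu : ∀ m, u m ∈ B m := by
      intro m
      simp only [u]
      split_ifs with h
      · rcases h with rfl | rfl
        · exact hU1 _ ha
        · exact hU1 _ hb
      · exact hU1 _ (hz m)
    have h1 := hom_sym hs (hhom u hu) _ hl
    have e1 : u i = a := by simp [u]
    have e2 : u j = a := by simp [u]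
    simp only [e1, e2] at h1
    exact hirr _ _ h1
  set UU : Finset V := univ.biUnion U with hUU
  have hcard : UU.card = (∑ i, w i) * t := by
    rw [hUU, card_biUnion fun i _ j _ hij => hdisj i j hij, sum_mul]
    exact sum_congr rfl fun i _ => hU2 i
  have hord : wsum L w * t ^ 3 ≤ (ordT g UU).card := by
    have hsub : (symL L).biUnion (fun p => U p.1 ×ˢ (U p.2.1 ×ˢ U p.2.2)) ⊆ ordT g UU := by
      rintro ⟨a, b, c⟩ hp
      rw [mem_biUnion] at hp
      obtain ⟨⟨i, j, l⟩, hl, hp⟩ := hp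
      simp only [mem_product] at hp
      obtain ⟨ha, hb, hc⟩ := hp
      obtain ⟨n1, n2, n3⟩ := hL.ne _ hl
      simp only at n1 n2 n3
      let u : Fin k → V := fun m => if m = i then a else if m = j then b else
        if m = l then c else z m
      have hu : ∀ m, u m ∈ B m := by
        intro m
        simp only [u]
        split_ifs with h h h
        · rw [h]; exact hU1 _ ha
        · rw [h]; exact hU1 _ hb
        · rw [h]; exact hU1 _ hc
        · exact hU1 _ (hz m)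
      have h1 := hom_sym hs (hhom u hu) _ hl
      have e1 : u i = a := by simp [u]
      have e2 : u j = b := by simp [u, n1.symm]
      have e3 : u l = c := by simp [u, n3.symm, n2.symm]
      simp only [e1, e2, e3] at h1
      simp only [ordT, mem_filter, mem_univ, true_and]
      exact ⟨h1, mem_biUnion.mpr ⟨i, mem_univ _, ha⟩, mem_biUnion.mpr ⟨j, mem_univ _, hb⟩,
        mem_biUnion.mpr ⟨l, mem_univ _, hc⟩⟩
    refine le_trans ?_ (card_le_card hsub)
    rw [card_biUnion]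
    · unfold wsum
      rw [sum_mul]
      refine le_of_eq (sum_congr rfl fun p _ => ?_)
      rw [card_product, card_product, hU2, hU2, hU2]
      ring
    · rintro ⟨i, j, l⟩ _ ⟨i', j', l'⟩ _ hne
      rw [Function.onFun, disjoint_left]
      rintro ⟨a, b, c⟩ h1 h2
      simp only [mem_product] at h1 h2
      apply hne
      have eq_of : ∀ {i i' : Fin k} {a : V}, a ∈ U i → a ∈ U i' → i = i' := by
        intro i i' a h1 h2
        by_contra hne
        exact disjoint_left.mp (hdisj i i' hne) h1 h2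
      rw [eq_of h1.1 h2.1, eq_of h1.2.1 h2.2.1, eq_of h1.2.2 h2.2.2]
  rw [ord_card hg] at hord
  have htU : t ≤ UU.card := by
    rw [hcard]
    have : 0 < ∑ i, w i := by
      apply sum_pos (fun i _ => hL.pos i)
      exact ⟨⟨0, hk⟩, mem_univ _⟩
    exact Nat.le_mul_of_pos_left t this
  obtain ⟨S, hS1, hS2⟩ := average hg.1 ht htU
  refine ⟨S, hS1, ?_⟩
  have hW : (0 : ℝ) < ((∑ i, w i : ℕ) : ℝ) := by
    have : 0 < ∑ i, w i := by
      apply sum_pos (fun i _ => hL.pos i)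
      exact ⟨⟨0, hk⟩, mem_univ _⟩
    exact_mod_cast this
  have ht0 : (0 : ℝ) < t := by
    have : 0 < t := by omega
    exact_mod_cast this
  have h1 : ((UU.card.choose 3 : ℕ) : ℝ) ≤ (((∑ i, w i : ℕ) : ℝ) * t) ^ 3 / 6 := by
    have := Nat.choose_le_pow_div (α := ℝ) 3 UU.card
    rw [hcard] at this ⊢
    push_cast at this ⊢
    have h6 : ((3 : ℕ).factorial : ℝ) = 6 := by norm_num [Nat.factorial]
    rw [h6] at this
    exact this
  have h2 : ((wsum L w : ℕ) : ℝ) * (t : ℝ) ^ 3 ≤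
      6 * ((H.filter (fun e => e ⊆ UU)).card : ℝ) := by exact_mod_cast hord
  have h3 : ((H.filter (fun e => e ⊆ UU)).card : ℝ) * ((t.choose 3 : ℕ) : ℝ) ≤
      ((H.filter (fun e => e ⊆ S)).card : ℝ) * ((UU.card.choose 3 : ℕ) : ℝ) := by
    exact_mod_cast hS2
  set C : ℝ := ((t.choose 3 : ℕ) : ℝ) with hC
  set X : ℝ := ((H.filter (fun e => e ⊆ S)).card : ℝ) with hX
  set Y : ℝ := ((H.filter (fun e => e ⊆ UU)).card : ℝ) with hY
  set W : ℝ := ((∑ i, w i : ℕ) : ℝ) with hW'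
  have hC0 : 0 ≤ C := Nat.cast_nonneg _
  have hX0 : 0 ≤ X := Nat.cast_nonneg _
  have h4 : γ * C * (W ^ 3 * (t : ℝ) ^ 3) ≤ X * (W ^ 3 * (t : ℝ) ^ 3) := by
    calc γ * C * (W ^ 3 * (t : ℝ) ^ 3) = (γ * W ^ 3) * (C * (t : ℝ) ^ 3) := by ring
      _ ≤ ((wsum L w : ℕ) : ℝ) * (C * (t : ℝ) ^ 3) :=
          mul_le_mul_of_nonneg_right hγ (by positivity)
      _ = (((wsum L w : ℕ) : ℝ) * (t : ℝ) ^ 3) * C := by ring
      _ ≤ (6 * Y) * C := mul_le_mul_of_nonneg_right h2 hC0
      _ = 6 * (Y * C) := by ring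
      _ ≤ 6 * (X * ((UU.card.choose 3 : ℕ) : ℝ)) := by linarith
      _ ≤ 6 * (X * ((W * t) ^ 3 / 6)) := by
          have := mul_le_mul_of_nonneg_left h1 hX0
          linarith
      _ = X * (W ^ 3 * (t : ℝ) ^ 3) := by ring
  exact le_of_mul_le_mul_right h4 (by positivity)

end Pool.Agent.H31Jump
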