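import Mathlib

/-! Erdős' box lemma. -/

set_option autoImplicit false

open scoped Classical

namespace Pool.Agent.H31Jump

open Finset

/-- The slice of `R` at `u`. -/
noncomputable def slice {k n : ℕ} (R : Finset (Fin (k + 1) → Fin n)) (u : Fin k → Fin n) :
    Finset (Fin n) := univ.filter fun a => (Fin.cons a u : Fin (k + 1) → Fin n) ∈ R

theorem sum_slice {k n : ℕ} (R : Finset (Fin (k + 1) → Fin n)) :
    ∑ u : Fin k → Fin n, (slice R u).card = R.card := by
  have h1 : ∀ u : Fin k → Fin n, (slice R u).card =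
      ∑ a : Fin n, if (Fin.cons a u : Fin (k + 1) → Fin n) ∈ R then 1 else 0 := by
    intro u
    rw [slice, card_filter]
  simp only [h1]
  rw [sum_comm, ← Fintype.sum_prod_type'
    (f := fun a u => if (Fin.cons a u : Fin (k + 1) → Fin n) ∈ R then 1 else 0)]
  have h2 : (∑ x : Fin n × (Fin k → Fin n),
      if (Fin.cons x.1 x.2 : Fin (k + 1) → Fin n) ∈ R then 1 else 0) =
      ∑ f : Fin (k + 1) → Fin n, if f ∈ R then 1 else 0 := by
    rw [← (Fin.consEquiv (fun _ : Fin (k + 1) => Fin n)).sum_comp]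
    rfl
  rw [h2, ← card_filter]
  congr 1
  ext f
  simp

theorem sum_subsets {k n : ℕ} (R : Finset (Fin (k + 1) → Fin n)) (s : ℕ) :
    ∑ A ∈ powersetCard s (univ : Finset (Fin n)),
      (univ.filter fun u : Fin k → Fin n => A ⊆ slice R u).card =
    ∑ u : Fin k → Fin n, (slice R u).card.choose s := by
  simp only [card_filter]
  rw [sum_comm]
  refine sum_congr rfl fun u _ => ?_
  rw [← card_filter, ← card_powersetCard]
  congr 1
  ext A
  simp only [mem_filter, mem_powersetCard, subset_univ, true_and]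
  tauto

/-- Elementary lower bound for the number of large slices. -/
theorem many_large {k n : ℕ} (R : Finset (Fin (k + 1) → Fin n)) {δ : ℝ} (hδ : 0 < δ) (hn : 0 < n)
    (hR : δ * (n : ℝ) ^ (k + 1) ≤ R.card) :
    δ / 2 * (n : ℝ) ^ k ≤
      ((univ : Finset (Fin k → Fin n)).filter fun u => δ / 2 * n ≤ (slice R u).card).card := by
  have hn0 : (0 : ℝ) < n := by exact_mod_cast hn
  set B := (univ : Finset (Fin k → Fin n)).filter fun u => δ / 2 * n ≤ (slice R u).card with hB
  have h1 : (R.card : ℝ) = ∑ u : Fin k → Fin n, ((slice R u).card : ℝ) := by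
    rw [← sum_slice R]
    push_cast
    rfl
  have h2 : ∑ u : Fin k → Fin n, ((slice R u).card : ℝ) ≤
      ∑ u : Fin k → Fin n, ((if u ∈ B then (n : ℝ) else 0) + δ / 2 * n) := by
    refine sum_le_sum fun u _ => ?_
    have hpos : 0 ≤ δ / 2 * n := by positivity
    by_cases hu : u ∈ B
    · rw [if_pos hu]
      have h3 : (slice R u).card ≤ n := by
        have := card_le_univ (slice R u)
        rwa [Fintype.card_fin] at this
      have h4 : ((slice R u).card : ℝ) ≤ n := by exact_mod_cast h3
      linarith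
    · rw [if_neg hu]
      have h3 : ¬ δ / 2 * n ≤ (slice R u).card := by
        intro h
        exact hu (by rw [hB]; simp [h])
      linarith
  have h3 : ∑ u : Fin k → Fin n, ((if u ∈ B then (n : ℝ) else 0) + δ / 2 * n) =
      B.card * n + δ / 2 * n * n ^ k := by
    rw [sum_add_distrib, sum_ite_mem, univ_inter, sum_const, sum_const, card_univ,
      Fintype.card_fun, Fintype.card_fin, Fintype.card_fin]
    simp only [nsmul_eq_mul]
    push_cast
    ring
  have h4 : δ * (n : ℝ) ^ (k + 1) ≤ B.card * n + δ / 2 * n * n ^ k := by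
    rw [← h3]
    linarith
  have h5 : δ / 2 * (n : ℝ) ^ k * n ≤ B.card * n := by
    have : δ * (n : ℝ) ^ (k + 1) = δ / 2 * n ^ k * n + δ / 2 * n * n ^ k := by ring
    linarith
  exact le_of_mul_le_mul_right h5 hn0

/-- Erdős' box lemma. -/
theorem box (s : ℕ) : ∀ k : ℕ, ∀ δ : ℝ, 0 < δ → ∃ n₀ : ℕ, ∀ n ≥ n₀,
    ∀ R : Finset (Fin k → Fin n), δ * (n : ℝ) ^ k ≤ R.card →
      ∃ V : Fin k → Finset (Fin n), (∀ i, (V i).card = s) ∧ ∀ f, (∀ i, f i ∈ V i) → f ∈ R := by
  intro k
  induction k with
  | zero =>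
    intro δ hδ
    refine ⟨0, fun n _ R hR => ⟨fun i => i.elim0, fun i => i.elim0, fun f _ => ?_⟩⟩
    have h1 : 0 < R.card := by
      have : (0 : ℝ) < R.card := by
        rw [pow_zero, mul_one] at hR
        linarith
      exact_mod_cast this
    obtain ⟨g, hg⟩ := card_pos.mp h1
    rwa [Subsingleton.elim f g]
  | succ k ih =>
    intro δ hδ
    have hδ' : 0 < δ / 2 * (δ / 4) ^ s := by positivity
    obtain ⟨n₁, h1⟩ := ih _ hδ'
    refine ⟨max (max n₁ 1) (⌈(4 * s / δ : ℝ)⌉₊), fun n hn R hR => ?_⟩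
    have hn1 : n₁ ≤ n := (le_max_left _ _).trans ((le_max_left _ _).trans hn)
    have hn2 : 1 ≤ n := (le_max_right _ _).trans ((le_max_left _ _).trans hn)
    have hn3 : (4 * s / δ : ℝ) ≤ n := (Nat.le_ceil _).trans
      (by exact_mod_cast (le_max_right _ _).trans hn)
    have hn0 : (0 : ℝ) < n := by exact_mod_cast hn2
    have hs4 : (s : ℝ) ≤ δ / 4 * n := by
      rw [div_le_iff₀ hδ] at hn3
      linarith
    set B := (univ : Finset (Fin k → Fin n)).filter
      fun u => δ / 2 * n ≤ (slice R u).card with hB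
    have hBc : δ / 2 * (n : ℝ) ^ k ≤ B.card := many_large R hδ hn2 hR
    -- lower bound for the number of subsets
    have hlow : ∀ u ∈ B, (δ / 4 * n) ^ s / (s.factorial : ℝ) ≤
        ((slice R u).card.choose s : ℕ) := by
      intro u hu
      have h2 : δ / 2 * n ≤ (slice R u).card := by
        rw [hB] at hu
        simpa using hu
      refine le_trans ?_ (Nat.pow_le_choose s (slice R u).card)
      apply div_le_div_of_nonneg_right _ (by positivity)
      apply pow_le_pow_left₀ (by positivity)
      have h3 : s ≤ (slice R u).card + 1 := by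
        have : (s : ℝ) ≤ ((slice R u).card : ℝ) + 1 := by linarith
        exact_mod_cast this
      rw [Nat.cast_sub h3]
      push_cast
      linarith
    have htot : δ / 2 * (n : ℝ) ^ k * ((δ / 4 * n) ^ s / (s.factorial : ℝ)) ≤
        ∑ A ∈ powersetCard s (univ : Finset (Fin n)),
          ((univ.filter fun u : Fin k → Fin n => A ⊆ slice R u).card : ℝ) := by
      have h2 : (∑ A ∈ powersetCard s (univ : Finset (Fin n)),
          ((univ.filter fun u : Fin k → Fin n => A ⊆ slice R u).card : ℝ)) =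
          ∑ u : Fin k → Fin n, (((slice R u).card.choose s : ℕ) : ℝ) := by
        have := sum_subsets R s
        exact_mod_cast this
      rw [h2]
      calc δ / 2 * (n : ℝ) ^ k * ((δ / 4 * n) ^ s / (s.factorial : ℝ))
          ≤ B.card * ((δ / 4 * n) ^ s / (s.factorial : ℝ)) :=
            mul_le_mul_of_nonneg_right hBc (by positivity)
        _ = ∑ u ∈ B, (δ / 4 * n) ^ s / (s.factorial : ℝ) := by
            rw [sum_const, nsmul_eq_mul]
        _ ≤ ∑ u ∈ B, (((slice R u).card.choose s : ℕ) : ℝ) := sum_le_sum hlow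
        _ ≤ _ := sum_le_sum_of_subset_of_nonneg (subset_univ _) fun _ _ _ => Nat.cast_nonneg _
    -- pigeonhole
    have hex : ∃ A ∈ powersetCard s (univ : Finset (Fin n)),
        δ / 2 * (δ / 4) ^ s * (n : ℝ) ^ k ≤
          ((univ.filter fun u : Fin k → Fin n => A ⊆ slice R u).card : ℝ) := by
      by_contra hcon
      push Not at hcon
      have hsn : s ≤ n ∨ n < s := le_or_gt s n
      by_cases hne : (powersetCard s (univ : Finset (Fin n))).Nonempty
      · have h2 := sum_lt_sum_of_nonempty hne hcon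
        rw [sum_const, card_powersetCard, card_univ, Fintype.card_fin, nsmul_eq_mul] at h2
        have h3 : ((n.choose s : ℕ) : ℝ) ≤ (n : ℝ) ^ s / (s.factorial : ℝ) :=
          Nat.choose_le_pow_div s n
        have h4 : ((n.choose s : ℕ) : ℝ) * (δ / 2 * (δ / 4) ^ s * (n : ℝ) ^ k) ≤
            (n : ℝ) ^ s / (s.factorial : ℝ) * (δ / 2 * (δ / 4) ^ s * (n : ℝ) ^ k) :=
          mul_le_mul_of_nonneg_right h3 (by positivity)
        have h5 : (n : ℝ) ^ s / (s.factorial : ℝ) * (δ / 2 * (δ / 4) ^ s * (n : ℝ) ^ k) =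
            δ / 2 * (n : ℝ) ^ k * ((δ / 4 * n) ^ s / (s.factorial : ℝ)) := by
          rw [mul_pow]; ring
        linarith
      · rw [not_nonempty_iff_eq_empty] at hne
        rw [hne, sum_empty] at htot
        have : 0 < δ / 2 * (n : ℝ) ^ k * ((δ / 4 * n) ^ s / (s.factorial : ℝ)) := by positivity
        linarith
    obtain ⟨A, hA, hAc⟩ := hex
    obtain ⟨V, hV1, hV2⟩ := h1 n hn1 _ hAc
    refine ⟨Fin.cons A V, ?_, ?_⟩
    · intro i
      refine Fin.cases ?_ (fun j => ?_) i
      · simpa using (mem_powersetCard.mp hA).2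
      · simpa using hV1 j
    · intro f hf
      have hf0 : f 0 ∈ A := by simpa using hf 0
      have hft : ∀ j : Fin k, f j.succ ∈ V j := fun j => by simpa using hf j.succ
      have h2 := hV2 (fun j => f j.succ) hft
      rw [mem_filter] at h2
      have h3 := h2.2 hf0
      rw [slice, mem_filter] at h3
      have h4 : (Fin.cons (f 0) (fun j => f j.succ) : Fin (k + 1) → Fin n) = f := by
        funext i
        refine Fin.cases ?_ (fun j => ?_) i <;> simp
      rw [h4] at h3
      exact h3.2

end Pool.Agent.H31Jump
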