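import Pool.Agent.H31Jump.Tables

/-! Classification of the tournaments without A, B and the Paley tournament on seven points,
all of whose arcs lie in cyclic triangles. -/

set_option autoImplicit false

namespace Pool.Agent.H31Jump

variable {V : Type*}

/-- Tournament with all arcs in cyclic triangles and without the three patterns. -/
structure TourHyp (T : V → V → Prop) : Prop where
  irr : ∀ a, ¬ T a a
  asym : ∀ a b, T a b → ¬ T b a
  tot : ∀ a b, a ≠ b → T a b ∨ T b a
  cov : ∀ a b, T a b → ∃ c, T b c ∧ T c a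
  noA : ∀ F : ℕ → V, ¬ ∀ i < 5, ∀ j < 5, (T (F i) (F j) ↔ apat i j = true)
  noB : ∀ F : ℕ → V, ¬ ∀ i < 5, ∀ j < 5, (T (F i) (F j) ↔ bpat i j = true)
  noP : ∀ F : ℕ → V, ¬ ∀ i < 7, ∀ j < 7, (T (F i) (F j) ↔ P7 i j = true)

variable {T : V → V → Prop}

theorem TourHyp.not_iff (h : TourHyp T) {a b : V} (hab : a ≠ b) : ¬ T a b ↔ T b a := by
  constructor
  · intro hn
    rcases h.tot a b hab with h1 | h1
    · exact absurd h1 hn
    · exact h1
  · intro h1 h2
    exact h.asym a b h2 h1

theorem TourHyp.bad (h : TourHyp T) {N : ℕ} {M : ℕ → ℕ → Bool} {c : ℕ} {F : ℕ → V}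
    (hp : ∀ i < N, ∀ j < N, (T (F i) (F j) ↔ M i j = true)) (hb : isBad N M c = true) :
    False := by
  unfold isBad at hb
  rw [List.all_eq_true] at hb
  have hb1 : ∀ i < 5, dig (c / 2) i < N ∧ ∀ j < 5,
      M (dig (c / 2) i) (dig (c / 2) j) = (if c % 2 = 0 then apat i j else bpat i j) := by
    intro i hi
    have h1 := hb i (List.mem_range.mpr hi)
    rw [Bool.and_eq_true, decide_eq_true_eq, List.all_eq_true] at h1
    refine ⟨h1.1, ?_⟩
    intro j hj
    have h2 := h1.2 j (List.mem_range.mpr hj)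
    exact beq_iff_eq.mp h2
  by_cases hc : c % 2 = 0
  · apply h.noA (fun i => F (dig (c / 2) i))
    intro i hi j hj
    rw [hp _ (hb1 i hi).1 _ (hb1 j hj).1, (hb1 i hi).2 j hj, if_pos hc]
  · apply h.noB (fun i => F (dig (c / 2) i))
    intro i hi j hj
    rw [hp _ (hb1 i hi).1 _ (hb1 j hj).1, (hb1 i hi).2 j hj, if_neg hc]

/-- `F` embeds the six point tournament. -/
def isB6 (T : V → V → Prop) (F : ℕ → V) : Prop :=
  ∀ i < 6, ∀ j < 6, (T (F i) (F j) ↔ P7 i j = true)

/-- `x` has type `p` over `F`. -/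
def typ (T : V → V → Prop) (F : ℕ → V) (x : V) (p : ℕ) : Prop :=
  p < 64 ∧ ∀ i < 6, (p.testBit i = true ↔ T x (F i))

/-- Extension of a sequence by two vertices. -/
def ext (F : ℕ → V) (x w : V) : ℕ → V :=
  fun i => if i < 6 then F i else if i = 6 then x else w

theorem exists_typ (T : V → V → Prop) (F : ℕ → V) (x : V) : ∃ p, typ T F x p := by
  classical
  refine ⟨Nat.ofBits (fun i : Fin 6 => decide (T x (F i))), ?_, ?_⟩
  · have := Nat.ofBits_lt_two_pow (fun i : Fin 6 => decide (T x (F i)))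
    simpa using this
  · intro i hi
    rw [Nat.testBit_ofBits_lt _ _ hi]
    simp

theorem pat8 (h : TourHyp T) {F : ℕ → V} (hF : isB6 T F) {x w : V} {p q : ℕ} {r : Bool}
    (hx : ∀ i < 6, x ≠ F i) (hw : ∀ i < 6, w ≠ F i) (hxw : x ≠ w)
    (hp : typ T F x p) (hq : typ T F w q) (hr : r = true ↔ T x w) :
    ∀ i < 8, ∀ j < 8, (T (ext F x w i) (ext F x w j) ↔ M8 p q r i j = true) := by
  intro i hi j hj
  have hxi : ∀ k < 6, (T (F k) x ↔ p.testBit k = false) := by
    intro k hk
    rw [← h.not_iff (hx k hk), ← hp.2 k hk]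
    simp
  have hwi : ∀ k < 6, (T (F k) w ↔ q.testBit k = false) := by
    intro k hk
    rw [← h.not_iff (hw k hk), ← hq.2 k hk]
    simp
  have hwx : T w x ↔ r = false := by
    rw [← h.not_iff hxw, ← hr]
    simp
  unfold ext M8
  by_cases hi6 : i < 6
  · rw [if_pos hi6, if_pos hi6]
    by_cases hj6 : j < 6
    · rw [if_pos hj6, if_pos hj6]
      exact hF i hi6 j hj6
    · rw [if_neg hj6, if_neg hj6]
      by_cases hj7 : j = 6
      · rw [if_pos hj7, if_pos hj7, hxi i hi6]
        simp
      · rw [if_neg hj7, if_neg hj7, hwi i hi6]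
        simp
  · rw [if_neg hi6, if_neg hi6]
    by_cases hi7 : i = 6
    · rw [if_pos hi7, if_pos hi7]
      by_cases hj6 : j < 6
      · rw [if_pos hj6, if_pos hj6]
        exact (hp.2 j hj6).symm
      · rw [if_neg hj6, if_neg hj6]
        by_cases hj7 : j = 6
        · rw [if_pos hj7, if_pos hj7]
          simp [h.irr]
        · rw [if_neg hj7, if_neg hj7]
          exact hr.symm
    · rw [if_neg hi7, if_neg hi7]
      by_cases hj6 : j < 6
      · rw [if_pos hj6, if_pos hj6]
        exact (hq.2 j hj6).symm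
      · rw [if_neg hj6, if_neg hj6]
        by_cases hj7 : j = 6
        · rw [if_pos hj7, if_pos hj7, hwx]
          simp
        · rw [if_neg hj7, if_neg hj7]
          simp [h.irr]

theorem pat7 (h : TourHyp T) {F : ℕ → V} (hF : isB6 T F) {x : V} {p : ℕ}
    (hx : ∀ i < 6, x ≠ F i) (hp : typ T F x p) :
    ∀ i < 7, ∀ j < 7, (T (ext F x x i) (ext F x x j) ↔ M8 p 0 false i j = true) := by
  intro i hi j hj
  have hxi : ∀ k < 6, (T (F k) x ↔ p.testBit k = false) := by
    intro k hk
    rw [← h.not_iff (hx k hk), ← hp.2 k hk]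
    simp
  unfold ext M8
  by_cases hi6 : i < 6
  · rw [if_pos hi6, if_pos hi6]
    by_cases hj6 : j < 6
    · rw [if_pos hj6, if_pos hj6]
      exact hF i hi6 j hj6
    · have hj7 : j = 6 := by omega
      rw [if_neg hj6, if_neg hj6, if_pos hj7, if_pos hj7, hxi i hi6]
      simp
  · have hi7 : i = 6 := by omega
    rw [if_neg hi6, if_neg hi6, if_pos hi7, if_pos hi7]
    by_cases hj6 : j < 6
    · rw [if_pos hj6, if_pos hj6]
      exact (hp.2 j hj6).symm
    · have hj7 : j = 6 := by omega
      rw [if_neg hj6, if_neg hj6, if_pos hj7, if_pos hj7]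
      simp [h.irr]

/-- Covering an arc `F b → x`. -/
theorem coverK (h : TourHyp T) {F : ℕ → V} (hF : isB6 T F) {x : V} {p b : ℕ}
    (hx : ∀ i < 6, x ≠ F i) (hp : typ T F x p) (hb : b < 6) (hpb : p.testBit b = false)
    (hin : ∀ c < 6, p.testBit c = true → P7 c b = false) :
    ∃ w q, (∀ i < 6, w ≠ F i) ∧ x ≠ w ∧ T x w ∧ typ T F w q ∧ q.testBit b = true := by
  have h1 : T (F b) x := by
    rw [← h.not_iff (hx b hb), ← hp.2 b hb, hpb]
    simp
  obtain ⟨w, hw1, hw2⟩ := h.cov _ _ h1
  obtain ⟨q, hq⟩ := exists_typ T F w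
  refine ⟨w, q, ?_, ?_, hw1, hq, (hq.2 b hb).mpr hw2⟩
  · intro i hi he
    rw [he] at hw1 hw2
    have h2 := (hp.2 i hi).mpr hw1
    have h3 := (hF i hi b hb).mp hw2
    rw [hin i hi h2] at h3
    exact absurd h3 (by simp)
  · intro he
    rw [← he] at hw1
    exact h.irr _ hw1

/-- Covering an arc `x → F b`. -/
theorem coverS (h : TourHyp T) {F : ℕ → V} (hF : isB6 T F) {x : V} {p b : ℕ}
    (_hx : ∀ i < 6, x ≠ F i) (hp : typ T F x p) (hb : b < 6) (hpb : p.testBit b = true)
    (hin : ∀ c < 6, p.testBit c = false → P7 b c = false) :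
    ∃ w q, (∀ i < 6, w ≠ F i) ∧ x ≠ w ∧ ¬ T x w ∧ typ T F w q ∧ q.testBit b = false := by
  have h1 : T x (F b) := (hp.2 b hb).mp hpb
  obtain ⟨w, hw1, hw2⟩ := h.cov _ _ h1
  obtain ⟨q, hq⟩ := exists_typ T F w
  have hxw : x ≠ w := by
    intro he
    rw [← he] at hw2
    exact h.irr _ hw2
  refine ⟨w, q, ?_, hxw, (h.not_iff hxw).mpr hw2, hq, ?_⟩
  · intro i hi he
    rw [he] at hw1 hw2
    have h3 := (hF b hb i hi).mp hw1
    have h2 : p.testBit i = false := by
      by_contra hne
      have : p.testBit i = true := by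
        cases hh : p.testBit i
        · exact absurd hh hne
        · rfl
      exact h.asym _ _ hw2 ((hp.2 i hi).mp this)
    rw [hin i hi h2] at h3
    exact absurd h3 (by simp)
  · by_contra hne
    have h5 : q.testBit b = true := by
      cases hh : q.testBit b
      · exact absurd hh hne
      · rfl
    exact h.asym _ _ hw1 ((hq.2 b hb).mp h5)

theorem no4 (h : TourHyp T) {F : ℕ → V} (hF : isB6 T F) {x : V}
    (hx : ∀ i < 6, x ≠ F i) (hp : typ T F x 4) : False := by
  obtain ⟨w, q, hw, hxw, hT, hq, hqb⟩ := coverK h hF (b := 0) hx hp (by norm_num) (by decide)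
    (by decide)
  exact h.bad (pat8 h hF hx hw hxw hp hq (r := true) (by simp [hT])) (tabc4_ok q hq.1 hqb)

theorem no16 (h : TourHyp T) {F : ℕ → V} (hF : isB6 T F) {x : V}
    (hx : ∀ i < 6, x ≠ F i) (hp : typ T F x 16) : False := by
  obtain ⟨w, q, hw, hxw, hT, hq, hqb⟩ := coverK h hF (b := 3) hx hp (by norm_num) (by decide)
    (by decide)
  exact h.bad (pat8 h hF hx hw hxw hp hq (r := true) (by simp [hT])) (tabc16_ok q hq.1 hqb)

theorem no32 (h : TourHyp T) {F : ℕ → V} (hF : isB6 T F) {x : V}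
    (hx : ∀ i < 6, x ≠ F i) (hp : typ T F x 32) : False := by
  obtain ⟨w, q, hw, hxw, hT, hq, hqb⟩ := coverK h hF (b := 1) hx hp (by norm_num) (by decide)
    (by decide)
  exact h.bad (pat8 h hF hx hw hxw hp hq (r := true) (by simp [hT])) (tabc32_ok q hq.1 hqb)

theorem no55 (h : TourHyp T) {F : ℕ → V} (hF : isB6 T F) {x : V}
    (hx : ∀ i < 6, x ≠ F i) (hp : typ T F x 55) : False := by
  obtain ⟨w, q, hw, hxw, hT, hq, hqb⟩ := coverS h hF (b := 5) hx hp (by norm_num) (by decide)
    (by decide)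
  exact h.bad (pat8 h hF hx hw hxw hp hq (r := false) (by simp [hT])) (tabc55_ok q hq.1 hqb)

theorem no61 (h : TourHyp T) {F : ℕ → V} (hF : isB6 T F) {x : V}
    (hx : ∀ i < 6, x ≠ F i) (hp : typ T F x 61) : False := by
  obtain ⟨w, q, hw, hxw, hT, hq, hqb⟩ := coverS h hF (b := 2) hx hp (by norm_num) (by decide)
    (by decide)
  exact h.bad (pat8 h hF hx hw hxw hp hq (r := false) (by simp [hT])) (tabc61_ok q hq.1 hqb)

theorem no62 (h : TourHyp T) {F : ℕ → V} (hF : isB6 T F) {x : V}
    (hx : ∀ i < 6, x ≠ F i) (hp : typ T F x 62) : False := by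
  obtain ⟨w, q, hw, hxw, hT, hq, hqb⟩ := coverS h hF (b := 4) hx hp (by norm_num) (by decide)
    (by decide)
  exact h.bad (pat8 h hF hx hw hxw hp hq (r := false) (by simp [hT])) (tabc62_ok q hq.1 hqb)

theorem P7_anti : ∀ i < 7, ∀ j < 7, i ≠ j → P7 i j = !(P7 j i) := by decide

/-- Replacement of a vertex of the embedded tournament by a twin. -/
theorem isB6_replace (h : TourHyp T) {F : ℕ → V} (hF : isB6 T F) {w : V} {q : ℕ}
    (hw : ∀ i < 6, w ≠ F i) (hq : typ T F w q) (hqt : q ∈ twins) :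
    isB6 T (fun i => if i = twinOf q then w else F i) := by
  intro i hi j hj
  beta_reduce
  by_cases h1 : i = twinOf q
  · by_cases h2 : j = twinOf q
    · rw [if_pos h1, if_pos h2, h1, h2]
      have : P7 (twinOf q) (twinOf q) = false := by
        have hh : ∀ k < 6, P7 k k = false := by decide
        exact hh _ (h1 ▸ hi)
      rw [this]
      simp [h.irr]
    · rw [if_pos h1, if_neg h2, ← hq.2 j hj, twin_bits q hqt j hj h2, h1]
  · by_cases h2 : j = twinOf q
    · rw [if_neg h1, if_pos h2, ← h.not_iff (hw i hi), ← hq.2 i hi, twin_bits q hqt i hi h1, h2,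
        P7_anti i (by omega) (twinOf q) (by omega) h1]
      simp
    · rw [if_neg h1, if_neg h2]
      exact hF i hi j hj

theorem no0 (h : TourHyp T) {F : ℕ → V} (hF : isB6 T F) {x : V}
    (hx : ∀ i < 6, x ≠ F i) (hp : typ T F x 0) : False := by
  obtain ⟨w, q, hw, hxw, hT, hq, hqb⟩ := coverK h hF (b := 0) hx hp (by norm_num) (by decide)
    (by decide)
  rcases tabc0_ok q hq.1 hqb with hb | hb
  · exact h.bad (pat8 h hF hx hw hxw hp hq (r := true) (by simp [hT])) hb
  · have hqt : q ∈ twins := by rcases hb with rfl | rfl <;> decide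
    have hq5 : twinOf q = 5 := by rcases hb with rfl | rfl <;> decide
    refine no32 h (isB6_replace h hF hw hq hqt) (x := x) ?_ ⟨by norm_num, ?_⟩
    · intro i hi
      by_cases h1 : i = twinOf q
      · rw [if_pos h1]; exact hxw
      · rw [if_neg h1]; exact hx i hi
    · intro i hi
      rw [hq5]
      beta_reduce
      by_cases h1 : i = 5
      · rw [if_pos h1, h1]
        simp only [hT, iff_true]
        decide
      · rw [if_neg h1, ← hp.2 i hi]
        have : ∀ i < 6, i ≠ 5 → (Nat.testBit 32 i = true ↔ Nat.testBit 0 i = true) := by decide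
        exact this i hi h1

theorem no63 (h : TourHyp T) {F : ℕ → V} (hF : isB6 T F) {x : V}
    (hx : ∀ i < 6, x ≠ F i) (hp : typ T F x 63) : False := by
  obtain ⟨w, q, hw, hxw, hT, hq, hqb⟩ := coverS h hF (b := 2) hx hp (by norm_num) (by decide)
    (by decide)
  rcases tabc63_ok q hq.1 hqb with hb | hb
  · exact h.bad (pat8 h hF hx hw hxw hp hq (r := false) (by simp [hT])) hb
  · have hqt : q ∈ twins := by rcases hb with rfl | rfl <;> decide
    have hq5 : twinOf q = 3 := by rcases hb with rfl | rfl <;> decide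
    refine no55 h (isB6_replace h hF hw hq hqt) (x := x) ?_ ⟨by norm_num, ?_⟩
    · intro i hi
      by_cases h1 : i = twinOf q
      · rw [if_pos h1]; exact hxw
      · rw [if_neg h1]; exact hx i hi
    · intro i hi
      rw [hq5]
      beta_reduce
      by_cases h1 : i = 3
      · rw [if_pos h1, h1]
        simp only [hT, iff_false]
        decide
      · rw [if_neg h1, ← hp.2 i hi]
        have : ∀ i < 6, i ≠ 3 → (Nat.testBit 55 i = true ↔ Nat.testBit 63 i = true) := by decide
        exact this i hi h1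

theorem all_twins (h : TourHyp T) {F : ℕ → V} (hF : isB6 T F) {x : V}
    (hx : ∀ i < 6, x ≠ F i) : ∃ p ∈ twins, typ T F x p := by
  obtain ⟨p, hp⟩ := exists_typ T F x
  rcases tab1_ok p hp.1 with hb | hb | hb | hb | hb | hb | hb | hb | hb | hb | hb
  · exact (h.bad (pat7 h hF hx hp) hb).elim
  · subst hb; exact (no0 h hF hx hp).elim
  · subst hb; exact (no4 h hF hx hp).elim
  · subst hb; exact (no16 h hF hx hp).elim
  · subst hb; exact (no32 h hF hx hp).elim
  · subst hb; exact (no55 h hF hx hp).elim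
  · subst hb; exact (no61 h hF hx hp).elim
  · subst hb; exact (no62 h hF hx hp).elim
  · subst hb; exact (no63 h hF hx hp).elim
  · subst hb
    exfalso
    apply h.noP (ext F x x)
    intro i hi j hj
    rw [pat7 h hF hx hp i hi j hj]
    have : ∀ i < 7, ∀ j < 7, (M8 11 0 false i j = true ↔ P7 i j = true) := by decide
    exact this i hi j hj
  · exact ⟨p, hb, hp⟩

/-- Helper for the six exceptional pairs. -/
theorem exc (h : TourHyp T) {F : ℕ → V} (hF : isB6 T F) {x w : V} {p q p' : ℕ}
    (hx : ∀ i < 6, x ≠ F i) (hw : ∀ i < 6, w ≠ F i) (hxw : x ≠ w)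
    (hp : typ T F x p) (hq : typ T F w q) (hqt : q ∈ twins) (hT : ¬ T x w)
    (hp' : p' = 4 ∨ p' = 16 ∨ p' = 32)
    (hbits : ∀ i < 6, (p'.testBit i = true ↔ (p.testBit i = true ∧ i ≠ twinOf q))) : False := by
  have hB := isB6_replace h hF hw hq hqt
  have hxn : ∀ i < 6, x ≠ (fun i => if i = twinOf q then w else F i) i := by
    intro i hi
    by_cases h1 : i = twinOf q
    · simp only [if_pos h1]; exact hxw
    · simp only [if_neg h1]; exact hx i hi
  have ht : typ T (fun i => if i = twinOf q then w else F i) x p' := by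
    refine ⟨by rcases hp' with rfl | rfl | rfl <;> norm_num, ?_⟩
    intro i hi
    rw [hbits i hi]
    beta_reduce
    by_cases h1 : i = twinOf q
    · rw [if_pos h1]
      simp [h1, hT]
    · rw [if_neg h1, ← hp.2 i hi]
      simp [h1]
  rcases hp' with rfl | rfl | rfl
  · exact no4 h hB hxn ht
  · exact no16 h hB hxn ht
  · exact no32 h hB hxn ht

/-- Two twins of different vertices are joined as those vertices. -/
theorem twin_rel (h : TourHyp T) {F : ℕ → V} (hF : isB6 T F) {x w : V} {p q : ℕ}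
    (hx : ∀ i < 6, x ≠ F i) (hw : ∀ i < 6, w ≠ F i)
    (hp : typ T F x p) (hq : typ T F w q) (hpt : p ∈ twins) (hqt : q ∈ twins)
    (hne : twinOf p ≠ twinOf q) : (T x w ↔ P7 (twinOf p) (twinOf q) = true) := by
  have hxw : x ≠ w := by
    intro he
    apply hne
    have : p = q := by
      apply Nat.eq_of_testBit_eq
      intro i
      by_cases hi : i < 6
      · have h1 := hp.2 i hi
        have h2 := hq.2 i hi
        rw [he] at h1
        cases hh : p.testBit i <;> cases hh2 : q.testBit i <;> simp_all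
      · have e1 : p.testBit i = false :=
          Nat.testBit_lt_two_pow (lt_of_lt_of_le hp.1 (by
            calc 64 = 2 ^ 6 := by norm_num
              _ ≤ 2 ^ i := Nat.pow_le_pow_right (by norm_num) (by omega)))
        have e2 : q.testBit i = false :=
          Nat.testBit_lt_two_pow (lt_of_lt_of_le hq.1 (by
            calc 64 = 2 ^ 6 := by norm_num
              _ ≤ 2 ^ i := Nat.pow_le_pow_right (by norm_num) (by omega)))
        rw [e1, e2]
    rw [this]
  by_contra hcon
  classical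
  have hr : ((!(P7 (twinOf p) (twinOf q))) = true ↔ T x w) := by
    cases hh : P7 (twinOf p) (twinOf q)
    · rw [hh] at hcon
      simp only [Bool.false_eq_true, iff_false, not_not] at hcon
      simp [hcon]
    · rw [hh] at hcon
      simp only [iff_true] at hcon
      simp [hcon]
  have hwx : ∀ {b : Bool}, P7 (twinOf p) (twinOf q) = b → (T x w ↔ b = false) := by
    intro b hb
    rw [← hr, hb]
    simp
  rcases tabt_ok p hpt q hqt hne with hb | ⟨rfl, rfl⟩ | ⟨rfl, rfl⟩ | ⟨rfl, rfl⟩ | ⟨rfl, rfl⟩ |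
      ⟨rfl, rfl⟩ | ⟨rfl, rfl⟩
  · exact h.bad (pat8 h hF hx hw hxw hp hq hr) hb
  · -- x twin 5, w = 23
    have h1 : ¬ T x w := by rw [hwx (b := true) (by decide)]; simp
    exact exc h hF hx hw hxw hp hq hqt h1 (p' := 4) (by simp) (by decide)
  · have h1 : T x w := by rw [hwx (b := false) (by decide)]
    exact exc h hF hw hx hxw.symm hq hp hpt (h.asym _ _ h1) (p' := 4) (by simp) (by decide)
  · have h1 : ¬ T x w := by rw [hwx (b := true) (by decide)]; simp
    exact exc h hF hx hw hxw hp hq hqt h1 (p' := 16) (by simp) (by decide)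
  · have h1 : T x w := by rw [hwx (b := false) (by decide)]
    exact exc h hF hw hx hxw.symm hq hp hpt (h.asym _ _ h1) (p' := 16) (by simp) (by decide)
  · have h1 : ¬ T x w := by rw [hwx (b := true) (by decide)]; simp
    exact exc h hF hx hw hxw hp hq hqt h1 (p' := 32) (by simp) (by decide)
  · have h1 : T x w := by rw [hwx (b := false) (by decide)]
    exact exc h hF hw hx hxw.symm hq hp hpt (h.asym _ _ h1) (p' := 32) (by simp) (by decide)

/-- `x` lies in the class of the vertex `i`. -/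
def cls (T : V → V → Prop) (F : ℕ → V) (i : ℕ) (x : V) : Prop :=
  i < 6 ∧ (x = F i ∨ ((∀ j < 6, x ≠ F j) ∧ ∃ p ∈ twins, typ T F x p ∧ twinOf p = i))

theorem cls_exists (h : TourHyp T) {F : ℕ → V} (hF : isB6 T F) (x : V) : ∃ i, cls T F i x := by
  by_cases hx : ∀ i < 6, x ≠ F i
  · obtain ⟨p, hpt, hp⟩ := all_twins h hF hx
    refine ⟨twinOf p, ?_, Or.inr ⟨hx, p, hpt, hp, rfl⟩⟩
    have : ∀ p ∈ twins, twinOf p < 6 := by decide
    exact this p hpt
  · push Not at hx
    obtain ⟨i, hi, he⟩ := hx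
    exact ⟨i, hi, Or.inl he⟩

theorem cls_rel (h : TourHyp T) {F : ℕ → V} (hF : isB6 T F) {x w : V} {i j : ℕ}
    (hx : cls T F i x) (hw : cls T F j w) (hij : i ≠ j) : (T x w ↔ P7 i j = true) := by
  obtain ⟨hi, hx⟩ := hx
  obtain ⟨hj, hw⟩ := hw
  rcases hx with rfl | ⟨hx, p, hpt, hp, rfl⟩
  · rcases hw with rfl | ⟨hw, q, hqt, hq, rfl⟩
    · exact hF i hi j hj
    · rw [← h.not_iff (hw i hi), ← hq.2 i hi, twin_bits q hqt i hi hij,
        P7_anti i (by omega) (twinOf q) (by omega) hij]
      simp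
  · rcases hw with rfl | ⟨hw, q, hqt, hq, rfl⟩
    · rw [← hp.2 j hj, twin_bits p hpt j hj hij.symm]
    · exact twin_rel h hF hx hw hp hq hpt hqt hij

/-- No cyclic triangle inside a class. -/
theorem cls_no_cyc (h : TourHyp T) {F : ℕ → V} (hF : isB6 T F) {a b c : V} {i : ℕ}
    (ha : cls T F i a) (hb : cls T F i b) (hc : cls T F i c) (hab : T a b) (hbc : T b c)
    (hca : T c a) : False := by
  have hi := ha.1
  have hyz : ∀ i < 6, ∃ y < 6, ∃ z < 6, P7 i y = true ∧ P7 y z = true ∧ P7 z i = true := by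
    decide
  obtain ⟨y, hy, z, hz, h1, h2, h3⟩ := hyz i hi
  have hdiag : ∀ k < 6, P7 k k = false := by decide
  have hne1 : i ≠ y := by
    rintro rfl
    rw [hdiag i hi] at h1
    exact absurd h1 (by simp)
  have hne3 : z ≠ i := by
    rintro rfl
    rw [hdiag z hz] at h3
    exact absurd h3 (by simp)
  have hY : cls T F y (F y) := ⟨hy, Or.inl rfl⟩
  have hZ : cls T F z (F z) := ⟨hz, Or.inl rfl⟩
  have key : ∀ {u : V}, cls T F i u → T u (F y) ∧ T (F z) u := by
    intro u hu
    exact ⟨(cls_rel h hF hu hY hne1).mpr h1, (cls_rel h hF hZ hu hne3).mpr h3⟩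
  have hyz' : T (F y) (F z) := (hF y hy z hz).mpr h2
  obtain ⟨a1, a2⟩ := key ha
  obtain ⟨b1, b2⟩ := key hb
  obtain ⟨c1, c2⟩ := key hc
  apply h.noA (fun n => if n = 0 then a else if n = 1 then b else if n = 2 then c else
    if n = 3 then F y else F z)
  have as := h.asym
  intro m hm n hn
  interval_cases m <;> interval_cases n <;>
    simp [apat, h.irr, hab, hbc, hca, a1, a2, b1, b2, c1, c2, hyz', as _ _ hab, as _ _ hbc,
      as _ _ hca, as _ _ a1, as _ _ a2, as _ _ b1, as _ _ b2, as _ _ c1, as _ _ c2,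
      as _ _ hyz']

theorem surj_of_B6 (h : TourHyp T) {F : ℕ → V} (hF : isB6 T F) (x : V) : ∃ i < 6, x = F i := by
  by_contra hcon
  push Not at hcon
  obtain ⟨i, hi⟩ := cls_exists h hF x
  have hI : cls T F i (F i) := ⟨hi.1, Or.inl rfl⟩
  -- the arc between x and F i
  have main : ∀ a b : V, cls T F i a → cls T F i b → T a b → False := by
    intro a b ha hb hab
    obtain ⟨c, hbc, hca⟩ := h.cov a b hab
    obtain ⟨j, hj⟩ := cls_exists h hF c
    by_cases hij : j = i
    · subst hij
      exact cls_no_cyc h hF ha hb hj hab hbc hca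
    · have h1 := (cls_rel h hF hj ha hij).mp hca
      have h2 := (cls_rel h hF hj hb hij).mpr h1
      exact h.asym _ _ h2 hbc
  rcases h.tot x (F i) (hcon i hi.1) with h1 | h1
  · exact main _ _ hi hI h1
  · exact main _ _ hI hi h1

end Pool.Agent.H31Jump
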