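import Pool.Agent.H31Jump.Sharp

/-! The lower bound construction. -/

set_option autoImplicit false

namespace Pool.Agent.H31Jump

open Finset

/-- `H` is the set of vertex sets of the directed 3-cycles of `D`. -/
def Rep {V : Type*} [DecidableEq V] (H : Finset (Finset V)) (D : V → V → Prop) : Prop :=
  ∀ e, e ∈ H ↔ ∃ a b c, a ≠ b ∧ b ≠ c ∧ a ≠ c ∧ e = {a, b, c} ∧ D a b ∧ D b c ∧ D c a

theorem desc_of_rep {V : Type*} [Fintype V] [DecidableEq V] {H : Finset (Finset V)}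
    {D : V → V → Prop} (hD : Rep H D) : Desc H (cyc D) := by
  refine ⟨?_, ?_⟩
  · intro e he
    obtain ⟨a, b, c, h1, h2, h3, rfl, _⟩ := (hD e).mp he
    exact Finset.card_eq_three.mpr ⟨a, b, c, h1, h3, h2, rfl⟩
  · intro a b c
    constructor
    · rintro ⟨h1, h2, h3, h4⟩
      refine ⟨h1, h2, h3, (hD _).mpr ?_⟩
      rcases h4 with ⟨d1, d2, d3⟩ | ⟨d1, d2, d3⟩
      · exact ⟨a, b, c, h1, h2, h3, rfl, d1, d2, d3⟩
      · exact ⟨c, b, a, h2.symm, h1.symm, h3.symm, by ext v; simp; tauto, d2, d1, d3⟩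
    · rintro ⟨h1, h2, h3, h4⟩
      obtain ⟨x, y, z, k1, k2, k3, he, d1, d2, d3⟩ := (hD _).mp h4
      rcases perm_of_eq h1 h2 h3 he with h | h | h | h | h | h <;>
      · obtain ⟨rfl, rfl, rfl⟩ := h
        exact ⟨h1, h2, h3, by tauto⟩

/-- Classes of the residues. -/
def f5 (r : Fin 280) : Fin 5 :=
  if r.1 < 34 then 0 else if r.1 < 68 then 1 else if r.1 < 102 then 2 else
    if r.1 < 191 then 3 else 4

theorem f5_card : ∀ i : Fin 5, ((univ : Finset (Fin 280)).filter fun r => f5 r = i).card =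
    (![34, 34, 34, 89, 89] : Fin 5 → ℕ) i := by decide +kernel

/-- The colouring of the blow-up. -/
def chi (k : ℕ) (v : Fin (280 * k)) : Fin 5 := f5 (finProdFinEquiv.symm v).1

theorem chi_card (k : ℕ) (i : Fin 5) :
    ((univ : Finset (Fin (280 * k))).filter fun v => chi k v = i).card =
      (![34, 34, 34, 89, 89] : Fin 5 → ℕ) i * k := by
  have h1 : ((univ : Finset (Fin (280 * k))).filter fun v => chi k v = i).card =
      ((univ : Finset (Fin 280 × Fin k)).filter fun x => f5 x.1 = i).card := by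
    apply card_equiv finProdFinEquiv.symm
    intro v
    simp [chi]
  have h2 : ((univ : Finset (Fin 280 × Fin k)).filter fun x => f5 x.1 = i) =
      (univ.filter fun r => f5 r = i) ×ˢ univ := by
    ext x
    simp
  rw [h1, h2, card_product, f5_card, card_univ, Fintype.card_fin]

open scoped Classical

theorem exists_rep {V : Type*} [Fintype V] [DecidableEq V] (D : V → V → Prop) :
    ∃ H : Finset (Finset V), Rep H D :=
  ⟨univ.filter fun e => ∃ a b c, a ≠ b ∧ b ≠ c ∧ a ≠ c ∧ e = {a, b, c} ∧ D a b ∧ D b c ∧ D c a,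
    fun e => by simp only [mem_filter, mem_univ, true_and]⟩

theorem sharp {γ : ℝ} (hγ : J0 < γ) : ∃ t : ℕ, 3 ≤ t ∧ ∀ n₀ : ℕ, ∃ n : ℕ, n₀ ≤ n ∧
    ∃ (H : Finset (Finset (Fin n))) (D : Fin n → Fin n → Prop), Rep H D ∧
      (23157 : ℝ) / 100000 * ((n.choose 3 : ℕ) : ℝ) ≤ (H.card : ℝ) ∧
      ∀ S : Finset (Fin n), S.card = t →
        ((H.filter (fun e => e ⊆ S)).card : ℝ) < γ * ((t.choose 3 : ℕ) : ℝ) := by
  have hJ : 0 < J0 := lt_trans (by norm_num) J0_gt
  have hγ0 : 0 < γ := hJ.trans hγ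
  set η : ℝ := (γ - J0) / (2 * γ) with hη
  have hη0 : 0 < η := div_pos (by linarith) (by linarith)
  refine ⟨max 3 ⌈6 / η⌉₊, le_max_left _ _, fun n₀ => ?_⟩
  set t := max 3 ⌈6 / η⌉₊ with ht
  have ht3 : 3 ≤ t := le_max_left _ _
  have ht0 : (0 : ℝ) < t := by
    have : 0 < t := by omega
    exact_mod_cast this
  have htη : 6 / η ≤ t := (Nat.le_ceil _).trans (by exact_mod_cast le_max_right _ _)
  have htc := six_choose_lower hη0 htη (by omega)
  obtain ⟨H, hH⟩ := exists_rep (fun x y : Fin (280 * (n₀ + 1)) =>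
    aF (chi (n₀ + 1) x) (chi (n₀ + 1) y))
  refine ⟨280 * (n₀ + 1), by omega, H, _, hH, ?_, ?_⟩
  · have h1 := ord_card (desc_of_rep hH) univ
    rw [ordT_pattern] at h1
    have h2 : H.filter (fun e => e ⊆ univ) = H := by
      apply filter_true_of_mem
      intro e _
      exact subset_univ _
    rw [h2, wsum_F32_eq] at h1
    simp only [chi_card] at h1
    have h3 : 6 * (34 * (n₀ + 1) * (34 * (n₀ + 1)) * (34 * (n₀ + 1)) +
        34 * (n₀ + 1) * (89 * (n₀ + 1)) * (89 * (n₀ + 1)) +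
        34 * (n₀ + 1) * (89 * (n₀ + 1)) * (89 * (n₀ + 1)) +
        34 * (n₀ + 1) * (89 * (n₀ + 1)) * (89 * (n₀ + 1))) = 6 * H.card := h1
    have h4 : (847246 : ℝ) * ((n₀ : ℝ) + 1) ^ 3 = H.card := by
      have : (847246 : ℕ) * (n₀ + 1) ^ 3 = H.card := by
        have e : 6 * (34 * (n₀ + 1) * (34 * (n₀ + 1)) * (34 * (n₀ + 1)) +
          34 * (n₀ + 1) * (89 * (n₀ + 1)) * (89 * (n₀ + 1)) +
          34 * (n₀ + 1) * (89 * (n₀ + 1)) * (89 * (n₀ + 1)) +
          34 * (n₀ + 1) * (89 * (n₀ + 1)) * (89 * (n₀ + 1))) =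
            6 * (847246 * (n₀ + 1) ^ 3) := by ring
        rw [e] at h3
        omega
      exact_mod_cast this
    have h5 := Nat.choose_le_pow_div (α := ℝ) 3 (280 * (n₀ + 1))
    have h6 : ((3 : ℕ).factorial : ℝ) = 6 := by norm_num [Nat.factorial]
    rw [h6] at h5
    push_cast at h5 ⊢
    rw [← h4]
    have h7 : 0 ≤ ((n₀ : ℝ) + 1) ^ 3 := by positivity
    have h8 : (280 * ((n₀ : ℝ) + 1)) ^ 3 / 6 = 280 ^ 3 / 6 * ((n₀ : ℝ) + 1) ^ 3 := by ring
    rw [h8] at h5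
    linarith
  · intro S hS
    have h1 := ord_card (desc_of_rep hH) S
    rw [ordT_pattern, wsum_F32_eq] at h1
    set x : Fin 5 → ℕ := fun i => (S.filter fun v => chi (n₀ + 1) v = i).card with hx
    have hsum : ∑ i, x i = t := by
      rw [← hS]
      exact (card_eq_sum_card_fiberwise (f := chi (n₀ + 1)) (t := univ)
        (fun v _ => mem_coe.mpr (mem_univ _))).symm
    rw [Fin.sum_univ_five] at hsum
    have h2 := lagr_F32 (x0 := (x 0 : ℝ)) (x1 := (x 1 : ℝ)) (x2 := (x 2 : ℝ)) (x3 := (x 3 : ℝ))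
      (x4 := (x 4 : ℝ)) (Nat.cast_nonneg _) (Nat.cast_nonneg _) (Nat.cast_nonneg _)
      (Nat.cast_nonneg _) (Nat.cast_nonneg _)
    have h3 : (x 0 : ℝ) + x 1 + x 2 + x 3 + x 4 = t := by exact_mod_cast hsum
    rw [h3] at h2
    have h4 : (6 : ℝ) * ((x 0 : ℝ) * x 1 * x 2 + x 0 * x 3 * x 4 + x 1 * x 3 * x 4 +
        x 2 * x 3 * x 4) = 6 * ((H.filter (fun e => e ⊆ S)).card : ℝ) := by exact_mod_cast h1
    rw [h4] at h2
    have h5 : γ * (1 - η) > J0 := by
      have : γ * η = (γ - J0) / 2 := by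
        rw [hη]
        field_simp
      linarith
    have h6 : γ * ((1 - η) * (t : ℝ) ^ 3) ≤ γ * (6 * ((t.choose 3 : ℕ) : ℝ)) :=
      mul_le_mul_of_nonneg_left htc hγ0.le
    have h7 : J0 * (t : ℝ) ^ 3 < γ * (1 - η) * (t : ℝ) ^ 3 :=
      mul_lt_mul_of_pos_right h5 (by positivity)
    linarith

end Pool.Agent.H31Jump
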