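import Pool.Agent.H31Jump.Super
import Pool.Agent.H31Jump.Blow
import Pool.Agent.H31Jump.Box

/-! Assembly. -/

set_option autoImplicit false

open scoped Classical

namespace Pool.Agent.H31Jump

open Finset

/-- The maps along which `h` becomes a homomorphism. -/
noncomputable def homSet {n m k : ℕ} (D : Fin n → Fin n → Prop)
    (L : List (Fin k × Fin k × Fin k)) (h : Fin k → Fin m) : Finset (Fin m → Fin n) :=
  univ.filter fun f => IsHom (cyc D) L (f ∘ h)

theorem cfg_case {k : ℕ} (hk : 0 < k) {L : List (Fin k × Fin k × Fin k)} {w : Fin k → ℕ}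
    (hL : Good L w) (m : ℕ) {δ : ℝ} (hδ : 0 < δ) {γ : ℝ}
    (hγ : γ * (((∑ i, w i : ℕ)) : ℝ) ^ 3 ≤ (wsum L w : ℕ)) {t : ℕ} (ht : 3 ≤ t) :
    ∃ n₀ : ℕ, ∀ n ≥ n₀, ∀ (H : Finset (Finset (Fin n))) (D : Fin n → Fin n → Prop),
      Desc H (cyc D) → ∀ h : Fin k → Fin m, δ * (n : ℝ) ^ m ≤ ((homSet D L h).card : ℝ) →
      ∃ S : Finset (Fin n), S.card = t ∧
        γ * ((t.choose 3 : ℕ) : ℝ) ≤ ((H.filter (fun e => e ⊆ S)).card : ℝ) := by
  obtain ⟨n₀, h0⟩ := box ((∑ i, w i) * t) m δ hδ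
  refine ⟨n₀, fun n hn H D hD h hh => ?_⟩
  obtain ⟨V, hV1, hV2⟩ := h0 n hn _ hh
  have hWpos : 0 < ∑ i, w i := by
    apply sum_pos (fun i _ => hL.pos i)
    exact ⟨⟨0, hk⟩, mem_univ _⟩
  have hne : ∀ i, (V i).Nonempty := by
    intro i
    rw [← card_pos, hV1]
    exact Nat.mul_pos hWpos (by omega)
  choose z hz using hne
  have hhom : ∀ f : Fin m → Fin n, (∀ i, f i ∈ V i) → IsHom (cyc D) L (f ∘ h) := by
    intro f hf
    have := hV2 f hf
    rw [homSet, mem_filter] at this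
    exact this.2
  have hinj : Function.Injective h := by
    have := hom_inj (cyc_sym D) (cyc_irr D) hL (hhom z hz)
    exact Function.Injective.of_comp this
  refine blow hD (cyc_sym D) (cyc_irr D) hk hL ht (B := fun j => V (h j)) ?_ ?_ hγ
  · intro j
    rw [hV1]
    exact Nat.mul_le_mul_right t (single_le_sum (fun i _ => Nat.zero_le _) (mem_univ j))
  · intro u hu
    let f : Fin m → Fin n := fun i => if hi : ∃ j, h j = i then u hi.choose else z i
    have hf1 : ∀ j, f (h j) = u j := by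
      intro j
      have hi : ∃ j', h j' = h j := ⟨j, rfl⟩
      simp only [f]
      rw [dif_pos hi, hinj hi.choose_spec]
    have hf2 : ∀ i, f i ∈ V i := by
      intro i
      by_cases hi : ∃ j, h j = i
      · obtain ⟨j, rfl⟩ := hi
        rw [hf1]
        exact hu j
      · simp only [f]
        rw [dif_neg hi]
        exact hz i
    have h1 := hhom f hf2
    have h2 : f ∘ h = u := by
      funext j
      exact hf1 j
    rwa [h2] at h1

theorem sum_hom_bound {n m k : ℕ} (D : Fin n → Fin n → Prop)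
    (L : List (Fin k × Fin k × Fin k)) {x : ℝ}
    (hx : ∀ h : Fin k → Fin m, ((homSet D L h).card : ℝ) < x) (hm : 0 < m) :
    ((univ.biUnion fun h : Fin k → Fin m => homSet D L h).card : ℝ) < (m : ℝ) ^ k * x := by
  have h1 : ((univ.biUnion fun h : Fin k → Fin m => homSet D L h).card : ℝ) ≤
      ∑ h : Fin k → Fin m, ((homSet D L h).card : ℝ) := by
    exact_mod_cast card_biUnion_le
  have hne : (univ : Finset (Fin k → Fin m)).Nonempty :=
    ⟨fun _ => ⟨0, hm⟩, mem_univ _⟩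
  have h2 : ∑ h : Fin k → Fin m, ((homSet D L h).card : ℝ) <
      ∑ h : Fin k → Fin m, x := sum_lt_sum_of_nonempty hne fun h _ => hx h
  rw [sum_const, card_univ, Fintype.card_fun, Fintype.card_fin, Fintype.card_fin,
    nsmul_eq_mul] at h2
  push_cast at h2
  linarith

theorem gam {A B : ℕ} {γ : ℝ} (hγ : γ ≤ 24 / 100) (h : 24 * A ^ 3 ≤ 100 * B) :
    γ * (A : ℝ) ^ 3 ≤ (B : ℝ) := by
  have h2 : (24 : ℝ) * (A : ℝ) ^ 3 ≤ 100 * (B : ℝ) := by exact_mod_cast h
  have h3 : γ * (A : ℝ) ^ 3 ≤ 24 / 100 * (A : ℝ) ^ 3 :=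
    mul_le_mul_of_nonneg_right hγ (by positivity)
  linarith

theorem main {γ : ℝ} (hγ : γ ≤ 24 / 100) {w : Fin 5 → ℕ} (hw : Good LF32 w)
    (γF : γ * (((∑ i, w i : ℕ)) : ℝ) ^ 3 ≤ (wsum LF32 w : ℕ))
    {ε : ℝ} (hε : 0 < ε) {t : ℕ} (ht : 3 ≤ t) : ∃ n₀ : ℕ, ∀ n ≥ n₀,
    ∀ (H : Finset (Finset (Fin n))) (D : Fin n → Fin n → Prop), Desc H (cyc D) →
      (2 / 9 + ε) * ((n.choose 3 : ℕ) : ℝ) ≤ (H.card : ℝ) →
      ∃ S : Finset (Fin n), S.card = t ∧
        γ * ((t.choose 3 : ℕ) : ℝ) ≤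
          ((H.filter (fun e => e ⊆ S)).card : ℝ) := by
  set ε' : ℝ := min ε 1 with hε'
  have hε'0 : 0 < ε' := lt_min hε one_pos
  obtain ⟨m, n₁, hm, h1⟩ := super hε'0 (min_le_right ε 1)
  have hm0 : (0 : ℝ) < m := by exact_mod_cast hm
  set δ : ℝ := ε' / (8 * (m : ℝ) ^ 7) with hδ
  have hδ0 : 0 < δ := by positivity
  have γK := gam hγ wsum_K4
  have γC := gam hγ wsum_C5
  have γH := gam hγ wsum_H7
  obtain ⟨a1, b1⟩ := cfg_case (by norm_num) good_K4 m hδ0 γK ht
  obtain ⟨a2, b2⟩ := cfg_case (by norm_num) hw m hδ0 γF ht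
  obtain ⟨a3, b3⟩ := cfg_case (by norm_num) good_C5 m hδ0 γC ht
  obtain ⟨a4, b4⟩ := cfg_case (by norm_num) good_H7 m hδ0 γH ht
  refine ⟨n₁ + a1 + a2 + a3 + a4, fun n hn H D hD hH => ?_⟩
  have hq : (2 / 9 + ε') * (6 * ((n.choose 3 : ℕ) : ℝ)) ≤ ((ordT (cyc D) univ).card : ℝ) := by
    rw [ord_card hD]
    have h2 : H.filter (fun e => e ⊆ univ) = H := by
      apply filter_true_of_mem
      intro e _
      exact subset_univ _
    rw [h2]
    push_cast
    have h3 : (2 / 9 + ε') * ((n.choose 3 : ℕ) : ℝ) ≤ (2 / 9 + ε) * ((n.choose 3 : ℕ) : ℝ) :=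
      mul_le_mul_of_nonneg_right (by linarith [min_le_left ε 1]) (Nat.cast_nonneg _)
    linarith
  have hF := h1 n (by omega) D hq
  by_contra hcon
  have c1 : ∀ h : Fin 4 → Fin m, ((homSet D LK4 h).card : ℝ) < δ * (n : ℝ) ^ m := by
    intro h
    by_contra hh
    exact hcon (b1 n (by omega) H D hD h (not_lt.mp hh))
  have c2 : ∀ h : Fin 5 → Fin m, ((homSet D LF32 h).card : ℝ) < δ * (n : ℝ) ^ m := by
    intro h
    by_contra hh
    exact hcon (b2 n (by omega) H D hD h (not_lt.mp hh))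
  have c3 : ∀ h : Fin 5 → Fin m, ((homSet D LC5 h).card : ℝ) < δ * (n : ℝ) ^ m := by
    intro h
    by_contra hh
    exact hcon (b3 n (by omega) H D hD h (not_lt.mp hh))
  have c4 : ∀ h : Fin 7 → Fin m, ((homSet D LH7 h).card : ℝ) < δ * (n : ℝ) ^ m := by
    intro h
    by_contra hh
    exact hcon (b4 n (by omega) H D hD h (not_lt.mp hh))
  have d1 := sum_hom_bound D LK4 c1 hm
  have d2 := sum_hom_bound D LF32 c2 hm
  have d3 := sum_hom_bound D LC5 c3 hm
  have d4 := sum_hom_bound D LH7 c4 hm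
  have hsub : ((univ : Finset (Fin m → Fin n)).filter fun f => ¬ Free (cyc (pull D f))) ⊆
      (univ.biUnion fun h : Fin 4 → Fin m => homSet D LK4 h) ∪
      ((univ.biUnion fun h : Fin 5 → Fin m => homSet D LF32 h) ∪
      ((univ.biUnion fun h : Fin 5 → Fin m => homSet D LC5 h) ∪
      (univ.biUnion fun h : Fin 7 → Fin m => homSet D LH7 h))) := by
    intro f hf
    rw [mem_filter] at hf
    by_contra hnot
    simp only [mem_union, mem_biUnion, mem_univ, true_and, homSet, mem_filter, not_or,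
      not_exists] at hnot
    obtain ⟨e1, e2, e3, e4⟩ := hnot
    have hconv : ∀ {k : ℕ} (L : List (Fin k × Fin k × Fin k)) (h : Fin k → Fin m),
        IsHom (cyc (pull D f)) L h → IsHom (cyc D) L (f ∘ h) := by
      intro k L h hh p hp
      exact (cyc_pull D f _ _ _).mp (hh p hp)
    exact hf.2 ⟨fun h hh => e1 h (hconv _ _ hh), fun h hh => e2 h (hconv _ _ hh),
      fun h hh => e3 h (hconv _ _ hh), fun h hh => e4 h (hconv _ _ hh)⟩
  have hcard := card_le_card hsub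
  have u1 := card_union_le (univ.biUnion fun h : Fin 4 → Fin m => homSet D LK4 h)
      ((univ.biUnion fun h : Fin 5 → Fin m => homSet D LF32 h) ∪
      ((univ.biUnion fun h : Fin 5 → Fin m => homSet D LC5 h) ∪
      (univ.biUnion fun h : Fin 7 → Fin m => homSet D LH7 h)))
  have u2 := card_union_le (univ.biUnion fun h : Fin 5 → Fin m => homSet D LF32 h)
      ((univ.biUnion fun h : Fin 5 → Fin m => homSet D LC5 h) ∪
      (univ.biUnion fun h : Fin 7 → Fin m => homSet D LH7 h))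
  have u3 := card_union_le (univ.biUnion fun h : Fin 5 → Fin m => homSet D LC5 h)
      (univ.biUnion fun h : Fin 7 → Fin m => homSet D LH7 h)
  have hall : ((((univ : Finset (Fin m → Fin n)).filter
      fun f => ¬ Free (cyc (pull D f))).card : ℕ) : ℝ) ≤
      ((univ.biUnion fun h : Fin 4 → Fin m => homSet D LK4 h).card : ℝ) +
      ((univ.biUnion fun h : Fin 5 → Fin m => homSet D LF32 h).card : ℝ) +
      ((univ.biUnion fun h : Fin 5 → Fin m => homSet D LC5 h).card : ℝ) +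
      ((univ.biUnion fun h : Fin 7 → Fin m => homSet D LH7 h).card : ℝ) := by
    have := hcard.trans (u1.trans (Nat.add_le_add_left (u2.trans (Nat.add_le_add_left u3 _)) _))
    have h2 : ((((univ : Finset (Fin m → Fin n)).filter
      fun f => ¬ Free (cyc (pull D f))).card : ℕ) : ℝ) ≤
      ((univ.biUnion fun h : Fin 4 → Fin m => homSet D LK4 h).card : ℝ) +
      (((univ.biUnion fun h : Fin 5 → Fin m => homSet D LF32 h).card : ℝ) +
      (((univ.biUnion fun h : Fin 5 → Fin m => homSet D LC5 h).card : ℝ) +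
      ((univ.biUnion fun h : Fin 7 → Fin m => homSet D LH7 h).card : ℝ))) := by
      exact_mod_cast this
    linarith
  have hm1 : (1 : ℝ) ≤ m := by exact_mod_cast hm
  have p4 : (m : ℝ) ^ 4 ≤ (m : ℝ) ^ 7 := pow_le_pow_right₀ hm1 (by norm_num)
  have p5 : (m : ℝ) ^ 5 ≤ (m : ℝ) ^ 7 := pow_le_pow_right₀ hm1 (by norm_num)
  have hX : 0 ≤ δ * (n : ℝ) ^ m := mul_nonneg hδ0.le (pow_nonneg (Nat.cast_nonneg _) _)
  have q4 := mul_le_mul_of_nonneg_right p4 hX
  have q5 := mul_le_mul_of_nonneg_right p5 hX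
  have hfin : 4 * ((m : ℝ) ^ 7 * (δ * (n : ℝ) ^ m)) = ε' / 2 * (n : ℝ) ^ m := by
    rw [hδ]
    field_simp
    ring
  linarith

end Pool.Agent.H31Jump
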