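import Mathlib

/-! Ordered and unordered triples, averaging over `t`-subsets. -/

set_option autoImplicit false

open scoped Classical

namespace Pool.Agent.H31Jump

open Finset

variable {V : Type*} [Fintype V] [DecidableEq V]

/-- The ternary relation `g` describes the triple system `H`. -/
def Desc (H : Finset (Finset V)) (g : V → V → V → Prop) : Prop :=
  (∀ e ∈ H, e.card = 3) ∧
    ∀ a b c, g a b c ↔ a ≠ b ∧ b ≠ c ∧ a ≠ c ∧ ({a, b, c} : Finset V) ∈ H

/-- Ordered triples in `S`. -/
noncomputable def ordT (g : V → V → V → Prop) (S : Finset V) : Finset (V × V × V) :=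
  univ.filter fun p => g p.1 p.2.1 p.2.2 ∧ p.1 ∈ S ∧ p.2.1 ∈ S ∧ p.2.2 ∈ S

theorem perm_of_eq {a b c x y z : V} (hxy : x ≠ y) (hyz : y ≠ z) (hxz : x ≠ z)
    (h : ({x, y, z} : Finset V) = {a, b, c}) :
    (x = a ∧ y = b ∧ z = c) ∨ (x = a ∧ y = c ∧ z = b) ∨ (x = b ∧ y = a ∧ z = c) ∨
      (x = b ∧ y = c ∧ z = a) ∨ (x = c ∧ y = a ∧ z = b) ∨ (x = c ∧ y = b ∧ z = a) := by
  have hx : x ∈ ({a, b, c} : Finset V) := by rw [← h]; simp
  have hy : y ∈ ({a, b, c} : Finset V) := by rw [← h]; simp
  have hz : z ∈ ({a, b, c} : Finset V) := by rw [← h]; simp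
  simp only [mem_insert, mem_singleton] at hx hy hz
  rcases hx with rfl | rfl | rfl <;> rcases hy with rfl | rfl | rfl <;>
    rcases hz with rfl | rfl | rfl <;> simp_all

theorem fibre_six {H : Finset (Finset V)} {g : V → V → V → Prop} (hg : Desc H g)
    {S e : Finset V} (he : e ∈ H) (heS : e ⊆ S) :
    ((ordT g S).filter fun p => ({p.1, p.2.1, p.2.2} : Finset V) = e).card = 6 := by
  obtain ⟨a, b, c, hab, hac, hbc, rfl⟩ := card_eq_three.mp (hg.1 e he)
  have haS : a ∈ S := heS (by simp)
  have hbS : b ∈ S := heS (by simp)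
  have hcS : c ∈ S := heS (by simp)
  have key : ((ordT g S).filter fun p => ({p.1, p.2.1, p.2.2} : Finset V) = {a, b, c}) =
      {(a, b, c), (a, c, b), (b, a, c), (b, c, a), (c, a, b), (c, b, a)} := by
    ext ⟨x, y, z⟩
    simp only [ordT, mem_filter, mem_univ, true_and, mem_insert, mem_singleton, Prod.mk.injEq]
    constructor
    · rintro ⟨⟨h1, _⟩, h2⟩
      have h3 := (hg.2 x y z).mp h1
      exact perm_of_eq h3.1 h3.2.1 h3.2.2.1 h2
    · have hset : ∀ x y z : V, ({x, y, z} : Finset V) = {a, b, c} → x ≠ y → y ≠ z → x ≠ z →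
          g x y z := by
        intro x y z h1 h2 h3 h4
        rw [hg.2]
        exact ⟨h2, h3, h4, by rw [h1]; exact he⟩
      have e2 : ({a, c, b} : Finset V) = {a, b, c} := by ext; simp; tauto
      have e3 : ({b, a, c} : Finset V) = {a, b, c} := by ext; simp; tauto
      have e4 : ({b, c, a} : Finset V) = {a, b, c} := by ext; simp; tauto
      have e5 : ({c, a, b} : Finset V) = {a, b, c} := by ext; simp; tauto
      have e6 : ({c, b, a} : Finset V) = {a, b, c} := by ext; simp; tauto
      rintro (⟨rfl, rfl, rfl⟩ | ⟨rfl, rfl, rfl⟩ | ⟨rfl, rfl, rfl⟩ | ⟨rfl, rfl, rfl⟩ |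
        ⟨rfl, rfl, rfl⟩ | ⟨rfl, rfl, rfl⟩)
      · exact ⟨⟨hset _ _ _ rfl hab hbc hac, haS, hbS, hcS⟩, rfl⟩
      · exact ⟨⟨hset _ _ _ e2 hac hbc.symm hab, haS, hcS, hbS⟩, e2⟩
      · exact ⟨⟨hset _ _ _ e3 hab.symm hac hbc, hbS, haS, hcS⟩, e3⟩
      · exact ⟨⟨hset _ _ _ e4 hbc hac.symm hab.symm, hbS, hcS, haS⟩, e4⟩
      · exact ⟨⟨hset _ _ _ e5 hac.symm hab hbc.symm, hcS, haS, hbS⟩, e5⟩
      · exact ⟨⟨hset _ _ _ e6 hbc.symm hab.symm hac.symm, hcS, hbS, haS⟩, e6⟩
  rw [key]
  rw [card_insert_of_notMem, card_insert_of_notMem, card_insert_of_notMem,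
    card_insert_of_notMem, card_insert_of_notMem, card_singleton] <;>
    simp [hab, hac, hbc, hab.symm, hac.symm, hbc.symm]

theorem ord_card {H : Finset (Finset V)} {g : V → V → V → Prop} (hg : Desc H g)
    (S : Finset V) : (ordT g S).card = 6 * (H.filter (fun e => e ⊆ S)).card := by
  have hmap : ∀ p ∈ ordT g S, ({p.1, p.2.1, p.2.2} : Finset V) ∈ H.filter (fun e => e ⊆ S) := by
    rintro ⟨x, y, z⟩ hp
    simp only [ordT, mem_filter, mem_univ, true_and] at hp ⊢
    refine ⟨((hg.2 x y z).mp hp.1).2.2.2, ?_⟩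
    intro v hv
    simp only [mem_insert, mem_singleton] at hv
    rcases hv with rfl | rfl | rfl
    · exact hp.2.1
    · exact hp.2.2.1
    · exact hp.2.2.2
  rw [card_eq_sum_card_fiberwise hmap, sum_congr rfl (g := fun _ => 6), sum_const, smul_eq_mul,
    mul_comm]
  intro e he
  rw [mem_filter] at he
  exact fibre_six hg he.1 he.2

theorem card_super {U e : Finset V} (he : e ⊆ U) {t : ℕ} (ht : e.card ≤ t) :
    ((powersetCard t U).filter fun S => e ⊆ S).card = (U.card - e.card).choose (t - e.card) := by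
  have key : ((powersetCard t U).filter fun S => e ⊆ S) =
      (powersetCard (t - e.card) (U \ e)).image (fun A => A ∪ e) := by
    ext S
    simp only [mem_filter, mem_powersetCard, mem_image]
    constructor
    · rintro ⟨⟨h1, h2⟩, h3⟩
      refine ⟨S \ e, ⟨sdiff_subset_sdiff h1 (Subset.refl _), ?_⟩, sdiff_union_of_subset h3⟩
      rw [card_sdiff_of_subset h3, h2]
    · rintro ⟨A, ⟨h1, h2⟩, rfl⟩
      refine ⟨⟨union_subset (h1.trans sdiff_subset) he, ?_⟩, subset_union_right⟩
      rw [card_union_of_disjoint, h2]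
      · omega
      · exact disjoint_of_subset_left h1 sdiff_disjoint
  rw [key, card_image_of_injOn, card_powersetCard, card_sdiff_of_subset he]
  intro A hA B hB hAB
  rw [mem_coe, mem_powersetCard] at hA hB
  have hA' : Disjoint A e := disjoint_of_subset_left hA.1 sdiff_disjoint
  have hB' : Disjoint B e := disjoint_of_subset_left hB.1 sdiff_disjoint
  have h1 : (A ∪ e) \ e = A := union_sdiff_cancel_right hA'
  have h2 : (B ∪ e) \ e = B := union_sdiff_cancel_right hB'
  rw [← h1, ← h2]
  beta_reduce at hAB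
  rw [hAB]

/-- Averaging over the `t`-subsets of `U`. -/
theorem average {H : Finset (Finset V)} (h3 : ∀ e ∈ H, e.card = 3) {U : Finset V} {t : ℕ}
    (ht : 3 ≤ t) (htU : t ≤ U.card) :
    ∃ S, S.card = t ∧ (H.filter (fun e => e ⊆ U)).card * t.choose 3 ≤
      (H.filter (fun e => e ⊆ S)).card * U.card.choose 3 := by
  have hsum : ∑ S ∈ powersetCard t U, (H.filter (fun e => e ⊆ S)).card =
      (H.filter (fun e => e ⊆ U)).card * (U.card - 3).choose (t - 3) := by
    calc ∑ S ∈ powersetCard t U, (H.filter (fun e => e ⊆ S)).card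
        = ∑ S ∈ powersetCard t U, ∑ e ∈ H.filter (fun e => e ⊆ U),
            (if e ⊆ S then 1 else 0) := by
          refine sum_congr rfl fun S hS => ?_
          rw [← card_filter, filter_filter]
          congr 1
          ext e
          simp only [mem_filter]
          constructor
          · rintro ⟨h1, h2⟩
            exact ⟨h1, h2.trans (mem_powersetCard.mp hS).1, h2⟩
          · rintro ⟨h1, _, h2⟩
            exact ⟨h1, h2⟩
      _ = ∑ e ∈ H.filter (fun e => e ⊆ U), ∑ S ∈ powersetCard t U, (if e ⊆ S then 1 else 0) :=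
          sum_comm
      _ = ∑ e ∈ H.filter (fun e => e ⊆ U), (U.card - 3).choose (t - 3) := by
          refine sum_congr rfl fun e he => ?_
          rw [mem_filter] at he
          rw [← card_filter, card_super he.2 (by rw [h3 e he.1]; exact ht), h3 e he.1]
      _ = _ := by rw [sum_const, smul_eq_mul]
  by_contra hcon
  push Not at hcon
  have hne : (powersetCard t U).Nonempty := powersetCard_nonempty.mpr htU
  have hlt : ∑ S ∈ powersetCard t U, (H.filter (fun e => e ⊆ S)).card * U.card.choose 3 <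
      ∑ S ∈ powersetCard t U, (H.filter (fun e => e ⊆ U)).card * t.choose 3 :=
    sum_lt_sum_of_nonempty hne fun S hS => hcon S (mem_powersetCard.mp hS).2
  rw [← sum_mul, hsum, sum_const, card_powersetCard, smul_eq_mul] at hlt
  have hch := Nat.choose_mul (n := U.card) (k := t) (s := 3) ht
  have : (H.filter (fun e => e ⊆ U)).card * (U.card - 3).choose (t - 3) * U.card.choose 3 =
      U.card.choose t * ((H.filter (fun e => e ⊆ U)).card * t.choose 3) := by
    calc _ = (H.filter (fun e => e ⊆ U)).card * (U.card.choose 3 * (U.card - 3).choose (t - 3)) := by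
          ring
      _ = (H.filter (fun e => e ⊆ U)).card * (U.card.choose t * t.choose 3) := by rw [hch]
      _ = _ := by ring
  omega

end Pool.Agent.H31Jump
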