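import Pool.Agent.H31Jump.Weights

/-! Sharpness of the constant: blow-ups of the tournament of `F₃,₂`. -/

set_option autoImplicit false

namespace Pool.Agent.H31Jump

open Finset

/-- The pattern on `Fin 5`. -/
def aF (i j : Fin 5) : Prop := apat i j = true

theorem aF_cyc : ∀ i j l : Fin 5,
    ((apat i j = true ∧ apat j l = true ∧ apat l i = true) ∨
      (apat j i = true ∧ apat l j = true ∧ apat i l = true)) ↔ (i, j, l) ∈ symL LF32 := by
  decide +kernel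

theorem aF_irr : ∀ i : Fin 5, ¬ apat i i = true := by decide +kernel

open scoped Classical

theorem cyc_pattern {V : Type*} (χ : V → Fin 5) (u v w : V) :
    cyc (fun x y => aF (χ x) (χ y)) u v w ↔ (χ u, χ v, χ w) ∈ symL LF32 := by
  rw [← aF_cyc]
  unfold cyc aF
  constructor
  · rintro ⟨_, _, _, h⟩
    exact h
  · intro h
    have ne : ∀ {x y : V}, apat (χ x) (χ y) = true → x ≠ y := by
      rintro x y h rfl
      exact aF_irr _ h
    rcases h with ⟨h1, h2, h3⟩ | ⟨h1, h2, h3⟩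
    · exact ⟨ne h1, ne h2, (ne h3).symm, Or.inl ⟨h1, h2, h3⟩⟩
    · exact ⟨(ne h1).symm, (ne h2).symm, ne h3, Or.inr ⟨h1, h2, h3⟩⟩

theorem ordT_pattern {V : Type*} [Fintype V] [DecidableEq V] (χ : V → Fin 5) (S : Finset V) :
    (ordT (cyc (fun x y => aF (χ x) (χ y))) S).card =
      wsum LF32 (fun i => (S.filter fun v => χ v = i).card) := by
  unfold wsum
  have h : ordT (cyc (fun x y => aF (χ x) (χ y))) S =
      (symL LF32).biUnion (fun p => (S.filter fun v => χ v = p.1) ×ˢ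
        ((S.filter fun v => χ v = p.2.1) ×ˢ (S.filter fun v => χ v = p.2.2))) := by
    ext ⟨u, v, w⟩
    simp only [ordT, mem_filter, mem_univ, true_and, mem_biUnion, mem_product, cyc_pattern]
    constructor
    · rintro ⟨h1, h2, h3, h4⟩
      exact ⟨_, h1, ⟨h2, rfl⟩, ⟨h3, rfl⟩, ⟨h4, rfl⟩⟩
    · rintro ⟨⟨i, j, l⟩, h1, ⟨h2, h3⟩, ⟨h4, h5⟩, ⟨h6, h7⟩⟩
      simp only at h3 h5 h7
      subst h3 h5 h7
      exact ⟨h1, h2, h4, h6⟩
  rw [h, card_biUnion]
  · refine sum_congr rfl fun p _ => ?_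
    rw [card_product, card_product]
  · rintro ⟨i, j, l⟩ _ ⟨i', j', l'⟩ _ hne
    rw [Function.onFun, disjoint_left]
    rintro ⟨a, b, c⟩ h1 h2
    simp only [mem_product, mem_filter] at h1 h2
    apply hne
    rw [← h1.1.2, ← h1.2.1.2, ← h1.2.2.2, ← h2.1.2, ← h2.2.1.2, ← h2.2.2.2]

/-- The Lagrangian of `F₃,₂`. -/
theorem lagr_F32 {x0 x1 x2 x3 x4 : ℝ} (h0 : 0 ≤ x0) (h1 : 0 ≤ x1) (h2 : 0 ≤ x2) (h3 : 0 ≤ x3)
    (h4 : 0 ≤ x4) :
    6 * (x0 * x1 * x2 + x0 * x3 * x4 + x1 * x3 * x4 + x2 * x3 * x4) ≤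
      J0 * (x0 + x1 + x2 + x3 + x4) ^ 3 := by
  set s := x0 + x1 + x2 with hs
  set r := x3 + x4 with hr
  have hs0 : 0 ≤ s := by positivity
  have hr0 : 0 ≤ r := by positivity
  have e1 : x0 * x1 * x2 ≤ s ^ 3 / 27 := by
    rw [hs]
    nlinarith [mul_nonneg h0 (sq_nonneg (x1 - x2)), mul_nonneg h1 (sq_nonneg (x0 - x2)),
      mul_nonneg h2 (sq_nonneg (x0 - x1)), mul_nonneg (add_nonneg (add_nonneg h0 h1) h2)
      (add_nonneg (add_nonneg (sq_nonneg (x0 - x1)) (sq_nonneg (x1 - x2))) (sq_nonneg (x0 - x2)))]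
  have e2 : x3 * x4 ≤ r ^ 2 / 4 := by
    rw [hr]
    nlinarith [sq_nonneg (x3 - x4)]
  have e3 : s * (x3 * x4) ≤ s * (r ^ 2 / 4) := mul_le_mul_of_nonneg_left e2 hs0
  have e4 : 6 * (x0 * x1 * x2 + x0 * x3 * x4 + x1 * x3 * x4 + x2 * x3 * x4) ≤
      6 * (s ^ 3 / 27 + s * (r ^ 2 / 4)) := by
    have : x0 * x1 * x2 + x0 * x3 * x4 + x1 * x3 * x4 + x2 * x3 * x4 =
        x0 * x1 * x2 + s * (x3 * x4) := by rw [hs]; ring
    rw [this]
    linarith
  refine e4.trans ?_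
  have e5 : x0 + x1 + x2 + x3 + x4 = s + r := by rw [hs, hr]; ring
  rw [e5]
  have h5 := sqrt5_sq
  have hlo := sqrt5_lo
  have hhi := sqrt5_hi
  have key : J0 * (s + r) ^ 3 - 6 * (s ^ 3 / 27 + s * (r ^ 2 / 4)) =
      31 / 18 * (s - (18 - 3 * √5) / 31 * (s + r)) ^ 2 *
        ((18 + 6 * √5) / 31 * (s + r) - s) := by
    unfold J0
    have c3 : √5 ^ 3 = 5 * √5 := by rw [pow_succ, pow_two, h5]
    have c2 : √5 ^ 2 = 5 := by rw [pow_two, h5]
    ring_nf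
    simp only [c3, c2]
    ring
  have hp : 0 ≤ (18 + 6 * √5) / 31 * (s + r) - s := by
    have : (1 : ℝ) ≤ (18 + 6 * √5) / 31 := by
      rw [le_div_iff₀ (by norm_num)]
      linarith
    have h6 : s + r ≤ (18 + 6 * √5) / 31 * (s + r) := by
      have := mul_le_mul_of_nonneg_right this (add_nonneg hs0 hr0)
      linarith
    linarith
  have hq : 0 ≤ 31 / 18 * (s - (18 - 3 * √5) / 31 * (s + r)) ^ 2 *
        ((18 + 6 * √5) / 31 * (s + r) - s) := by positivity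
  linarith

end Pool.Agent.H31Jump
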