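import Pool.Agent.H31Jump.Classify

/-! Existence of the six point tournament and the final form of the classification. -/

set_option autoImplicit false

namespace Pool.Agent.H31Jump

variable {V : Type*} {T : V → V → Prop}

theorem TourHyp.mkA (h : TourHyp T) {a b c y z : V} (h1 : T a b) (h2 : T b c) (h3 : T c a)
    (h4 : T y z) (h5 : T z a) (h6 : T z b) (h7 : T z c) (h8 : T a y) (h9 : T b y)
    (h10 : T c y) : False := by
  apply h.noA (fun n => if n = 0 then a else if n = 1 then b else if n = 2 then c else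
    if n = 3 then y else z)
  have as := h.asym
  intro m hm n hn
  interval_cases m <;> interval_cases n <;>
    simp [apat, h.irr, h1, h2, h3, h4, h5, h6, h7, h8, h9, h10, as _ _ h1, as _ _ h2,
      as _ _ h3, as _ _ h4, as _ _ h5, as _ _ h6, as _ _ h7, as _ _ h8, as _ _ h9,
      as _ _ h10]

theorem TourHyp.mkB (h : TourHyp T) {a b c d e : V} (h1 : T a b) (h2 : T b c) (h3 : T c d)
    (h4 : T d e) (h5 : T e a) (h6 : T a c) (h7 : T b d) (h8 : T c e) (h9 : T d a)
    (h10 : T e b) : False := by
  apply h.noB (fun n => if n = 0 then a else if n = 1 then b else if n = 2 then c else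
    if n = 3 then d else e)
  have as := h.asym
  intro m hm n hn
  interval_cases m <;> interval_cases n <;>
    simp [bpat, h.irr, h1, h2, h3, h4, h5, h6, h7, h8, h9, h10, as _ _ h1, as _ _ h2,
      as _ _ h3, as _ _ h4, as _ _ h5, as _ _ h6, as _ _ h7, as _ _ h8, as _ _ h9,
      as _ _ h10]

theorem TourHyp.mkB6 (h : TourHyp T) {a b c d e f : V} (h1 : T a b) (h2 : T a c) (h3 : T a e)
    (h4 : T b c) (h5 : T b d) (h6 : T b f) (h7 : T c d) (h8 : T c e) (h9 : T d a)
    (h10 : T d e) (h11 : T d f) (h12 : T e b) (h13 : T e f) (h14 : T f a) (h15 : T f c) :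
    ∃ F : ℕ → V, isB6 T F := by
  refine ⟨fun n => if n = 0 then a else if n = 1 then b else if n = 2 then c else
    if n = 3 then d else if n = 4 then e else f, ?_⟩
  have as := h.asym
  intro m hm n hn
  interval_cases m <;> interval_cases n <;>
    simp [P7, h.irr, h1, h2, h3, h4, h5, h6, h7, h8, h9, h10, h11, h12, h13, h14, h15,
      as _ _ h1, as _ _ h2, as _ _ h3, as _ _ h4, as _ _ h5, as _ _ h6, as _ _ h7, as _ _ h8,
      as _ _ h9, as _ _ h10, as _ _ h11, as _ _ h12, as _ _ h13, as _ _ h14, as _ _ h15]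

theorem two_out (h : TourHyp T) {a b c d : V} (hab : a ≠ b) (hac : a ≠ c) (had : a ≠ d)
    (hbc : b ≠ c) (hbd : b ≠ d) (hcd : c ≠ d) : ∃ v o p, T v o ∧ T v p ∧ T o p := by
  have key : ∀ v o p, T v o → T v p → o ≠ p → ∃ v o p, T v o ∧ T v p ∧ T o p := by
    intro v o p h1 h2 h3
    rcases h.tot o p h3 with h4 | h4
    · exact ⟨v, o, p, h1, h2, h4⟩
    · exact ⟨v, p, o, h2, h1, h4⟩
  rcases h.tot a b hab with h1 | h1
  · rcases h.tot a c hac with h2 | h2
    · exact key a b c h1 h2 hbc
    · rcases h.tot a d had with h3 | h3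
      · exact key a b d h1 h3 hbd
      · rcases h.tot c d hcd with h4 | h4
        · exact key c a d h2 h4 had
        · exact key d a c h3 h4 hac
  · rcases h.tot a c hac with h2 | h2
    · rcases h.tot b d hbd with h3 | h3
      · exact key b a d h1 h3 had
      · rcases h.tot a d had with h4 | h4
        · exact key a c d h2 h4 hcd
        · exact key d a b h4 h3 hab
    · rcases h.tot b c hbc with h3 | h3
      · exact key b a c h1 h3 hac
      · exact key c a b h2 h3 hab

theorem exists_base (h : TourHyp T) {a b c d : V} (hab : a ≠ b) (hac : a ≠ c) (had : a ≠ d)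
    (hbc : b ≠ c) (hbd : b ≠ d) (hcd : c ≠ d) :
    ∃ y z p q, T y z ∧ T z p ∧ T z q ∧ T p y ∧ T q y ∧ T p q := by
  obtain ⟨v, o, o', h1, h2, h3⟩ := two_out h hab hac had hbc hbd hcd
  obtain ⟨i, h4, h5⟩ := h.cov v o' h2
  have hne : i ≠ o := by
    rintro rfl
    exact h.asym _ _ h3 h4
  rcases h.tot i o hne with h6 | h6
  · exact ⟨o', i, v, o, h4, h5, h6, h2, h3, h1⟩
  · exact ⟨i, v, o, o', h5, h1, h2, h6, h4, h3⟩

theorem exists_B6 (h : TourHyp T) {a b c d : V} (hab : a ≠ b) (hac : a ≠ c) (had : a ≠ d)
    (hbc : b ≠ c) (hbd : b ≠ d) (hcd : c ≠ d) : ∃ F : ℕ → V, isB6 T F := by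
  obtain ⟨y, z, p, q, yz, zp, zq, py, qy, pq⟩ := exists_base h hab hac had hbc hbd hcd
  obtain ⟨w, qw, wp⟩ := h.cov p q pq
  have as := h.asym
  have wy : w ≠ y := by rintro rfl; exact as _ _ wp py
  have wz : w ≠ z := by rintro rfl; exact as _ _ qw zq
  rcases h.tot w y wy with wy | yw
  · rcases h.tot w z wz with wz | zw
    · -- case (ii)
      obtain ⟨u, yu, uw⟩ := h.cov w y wy
      have nuz : u ≠ z := by rintro rfl; exact as _ _ uw wz
      have nup : u ≠ p := by rintro rfl; exact as _ _ yu py
      have nuq : u ≠ q := by rintro rfl; exact as _ _ yu qy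
      rcases h.tot u z nuz with uz | zu
      · rcases h.tot u q nuq with uq | qu
        · rcases h.tot u p nup with up | pu
          · exact (h.mkA pq qw wp yu up uq uw py qy wy).elim
          · exact h.mkB6 (a := p) (b := u) (c := q) (d := w) (e := y) (f := z)
              pu pq py uq uw uz qw qy wp wy wz yu yz zp zq
        · exact (h.mkA yu uw wy zq qy qu qw yz uz wz).elim
      · rcases h.tot u p nup with up | pu
        · rcases h.tot u q nuq with uq | qu
          · exact (h.mkA pq qw wp yu up uq uw py qy wy).elim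
          · exact h.mkB6 (a := z) (b := q) (c := u) (d := w) (e := p) (f := y)
              zq zu zp qu qw qy uw up wz wp wy pq py yz yu
        · exact (h.mkA yz zp py uw wy wz wp yu zu pu).elim
    · exact (h.mkA pq qw wp yz zp zq zw py qy wy).elim
  · rcases h.tot w z wz with wz | zw
    · exact (h.mkB (a := y) (b := w) (c := z) (d := p) (e := q)
        yw wz zp pq qy yz wp zq py qw).elim
    · -- case (i)
      obtain ⟨u, wu, uz⟩ := h.cov z w zw
      have nuy : u ≠ y := by rintro rfl; exact as _ _ wu yw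
      have nup : u ≠ p := by rintro rfl; exact as _ _ uz zp
      have nuq : u ≠ q := by rintro rfl; exact as _ _ uz zq
      rcases h.tot u y nuy with uy | yu
      · rcases h.tot u q nuq with uq | qu
        · exact (h.mkA yz zq qy wu uy uz uq yw zw qw).elim
        · rcases h.tot u p nup with up | pu
          · exact h.mkB6 (a := z) (b := q) (c := w) (d := u) (e := p) (f := y)
              zq zw zp qw qu qy wu wp uz up uy pq py yz yw
          · exact (h.mkA pq qw wp uz zp zq zw pu qu wu).elim
      · rcases h.tot u p nup with up | pu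
        · exact (h.mkA zw wu uz py yz yw yu zp wp up).elim
        · rcases h.tot u q nuq with uq | qu
          · exact h.mkB6 (a := y) (b := z) (c := w) (d := p) (e := u) (f := q)
              yz yw yu zw zp zq wp wu py pu pq uz uq qy qw
          · exact (h.mkA pq qw wp uz zp zq zw pu qu wu).elim

/-- Classification: with at least four points the tournament is the six point one. -/
theorem classify (h : TourHyp T) {a b c d : V} (hab : a ≠ b) (hac : a ≠ c) (had : a ≠ d)
    (hbc : b ≠ c) (hbd : b ≠ d) (hcd : c ≠ d) :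
    ∃ F : ℕ → V, isB6 T F ∧ ∀ x, ∃ i < 6, x = F i := by
  obtain ⟨F, hF⟩ := exists_B6 h hab hac had hbc hbd hcd
  exact ⟨F, hF, surj_of_B6 h hF⟩

end Pool.Agent.H31Jump
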