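import Pool.Agent.H31Jump.Cyc

/-! The Turán bound: without the four configurations the Lagrangian is at most `2/9`. -/

set_option autoImplicit false

namespace Pool.Agent.H31Jump

theorem perm3 : ∀ i j k : Fin 3, i ≠ j ∧ j ≠ k ∧ i ≠ k →
    (i = 0 ∧ j = 1 ∧ k = 2) ∨ (i = 0 ∧ j = 2 ∧ k = 1) ∨ (i = 1 ∧ j = 0 ∧ k = 2) ∨
    (i = 1 ∧ j = 2 ∧ k = 0) ∨ (i = 2 ∧ j = 0 ∧ k = 1) ∨ (i = 2 ∧ j = 1 ∧ k = 0) := by
  intro i j k
  fin_cases i <;> fin_cases j <;> fin_cases k <;> simp

open scoped Classical

theorem Q3_restrict {V ι : Type*} [Fintype V] [Fintype ι] (g : V → V → V → Prop)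
    (e : ι → V) (he : Function.Injective e) (x y z : V → ℝ)
    (hx : ∀ v, v ∉ Set.range e → x v = 0) (hy : ∀ v, v ∉ Set.range e → y v = 0)
    (hz : ∀ v, v ∉ Set.range e → z v = 0) :
    Q3 g x y z = Q3 (fun i j k => g (e i) (e j) (e k)) (x ∘ e) (y ∘ e) (z ∘ e) := by
  unfold Q3
  symm
  apply Fintype.sum_of_injective e he
  · intro a ha
    refine Finset.sum_eq_zero fun b _ => Finset.sum_eq_zero fun c _ => ?_
    rw [hx a ha]
    simp
  · intro i
    apply Fintype.sum_of_injective e he
    · intro b hb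
      refine Finset.sum_eq_zero fun c _ => ?_
      rw [hy b hb]
      simp
    · intro j
      apply Fintype.sum_of_injective e he
      · intro c hc
        rw [hz c hc]
        simp
      · intro k
        rfl

/-- Boolean version of the cyclic triangles of the six point tournament. -/
def cyc6 (i j k : ℕ) : Bool :=
  (P7 i j && P7 j k && P7 k i) || (P7 j i && P7 k j && P7 i k)

/-- The direction. -/
def eps6 (i : ℕ) : ℤ := if i = 0 ∨ i = 1 ∨ i = 3 then 1 else -1

theorem flat2 : ∀ i : Fin 6, (∑ j : Fin 6, ∑ k : Fin 6,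
    (if cyc6 i j k = true then eps6 j * eps6 k else 0)) = 0 := by decide +kernel

theorem eps_sum : ∑ i : Fin 6, eps6 i = 0 := by decide +kernel

theorem cyc6_iff {V : Type*} {T : V → V → Prop} (irr : ∀ a, ¬ T a a) {F : ℕ → V}
    (hF : isB6 T F) (i j k : Fin 6) :
    cyc T (F i) (F j) (F k) ↔ cyc6 i j k = true := by
  have h := fun (i j : Fin 6) => hF i i.2 j j.2
  have ne : ∀ {u v : V}, T u v → u ≠ v := by
    rintro u v h rfl
    exact irr _ h
  unfold cyc cyc6
  simp only [Bool.or_eq_true, Bool.and_eq_true, ← h]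
  constructor
  · rintro ⟨_, _, _, h | h⟩
    · exact Or.inl ⟨⟨h.1, h.2.1⟩, h.2.2⟩
    · exact Or.inr ⟨⟨h.1, h.2.1⟩, h.2.2⟩
  · rintro (⟨⟨h1, h2⟩, h3⟩ | ⟨⟨h1, h2⟩, h3⟩)
    · exact ⟨ne h1, ne h2, (ne h3).symm, Or.inl ⟨h1, h2, h3⟩⟩
    · exact ⟨(ne h1).symm, (ne h2).symm, ne h3, Or.inr ⟨h1, h2, h3⟩⟩

theorem Qflat (y : Fin 6 → ℝ) :
    Q3 (fun i j k : Fin 6 => cyc6 i j k = true) y (fun i => (eps6 i : ℝ))
      (fun i => (eps6 i : ℝ)) = 0 := by
  unfold Q3
  refine Finset.sum_eq_zero fun i _ => ?_
  have h := flat2 i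
  have h2 : (∑ j : Fin 6, ∑ k : Fin 6,
      (if cyc6 i j k = true then y i * (eps6 j : ℝ) * (eps6 k : ℝ) else 0)) =
      y i * ((∑ j : Fin 6, ∑ k : Fin 6,
        (if cyc6 i j k = true then eps6 j * eps6 k else 0) : ℤ) : ℝ) := by
    push_cast
    simp only [Finset.mul_sum]
    refine Finset.sum_congr rfl fun j _ => Finset.sum_congr rfl fun k _ => ?_
    split_ifs
    · push_cast; ring
    · simp
  refine Eq.trans (Finset.sum_congr rfl fun j _ => Finset.sum_congr rfl fun k _ => ?_)
    (h2.trans ?_)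
  · by_cases hc : cyc6 i j k = true
    · rw [if_pos hc, if_pos hc]
    · rw [if_neg hc, if_neg hc]
  · rw [h]
    simp

theorem amgm3 {a b c : ℝ} (ha : 0 ≤ a) (hb : 0 ≤ b) (hc : 0 ≤ c) (h : a + b + c = 1) :
    27 * (a * b * c) ≤ 1 := by
  have e : c = 1 - a - b := by linarith
  have h1 : (a + b + c) ^ 3 = 1 := by rw [h]; norm_num
  nlinarith [mul_nonneg ha (sq_nonneg (b - c)), mul_nonneg hb (sq_nonneg (a - c)),
    mul_nonneg hc (sq_nonneg (a - b)), mul_nonneg (add_nonneg (add_nonneg ha hb) hc)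
      (add_nonneg (add_nonneg (sq_nonneg (a - b)) (sq_nonneg (b - c))) (sq_nonneg (a - c)))]

theorem sum6 : (∑ i : Fin 3, ∑ j : Fin 3, ∑ k : Fin 3,
    (if i ≠ j ∧ j ≠ k ∧ i ≠ k then (1 : ℕ) else 0)) = 6 := by decide +kernel

/-- Small supports. -/
theorem small_supp {V : Type*} [Fintype V] (D : V → V → Prop) {x : V → ℝ} (hx : IsW x)
    (hs : (supp x).card ≤ 3) : Qf (cyc D) x ≤ 2 / 9 := by
  by_cases h3 : (supp x).card = 3
  · obtain ⟨a, b, c, hab, hac, hbc, he⟩ := Finset.card_eq_three.mp h3
    let e : Fin 3 → V := ![a, b, c]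
    have hinj : Function.Injective e := by
      intro i j hij
      fin_cases i <;> fin_cases j <;> simp_all [e]
    have hoff : ∀ v, v ∉ Set.range e → x v = 0 := by
      intro v hv
      by_contra hne
      have h1 : v ∈ supp x := by simp [supp, hne]
      rw [he] at h1
      simp only [Finset.mem_insert, Finset.mem_singleton] at h1
      apply hv
      rcases h1 with rfl | rfl | rfl
      · exact ⟨0, rfl⟩
      · exact ⟨1, rfl⟩
      · exact ⟨2, rfl⟩
    have hsum : x a + x b + x c = 1 := by
      rw [← hx.2]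
      have := Fintype.sum_of_injective e hinj (fun i => x (e i)) x hoff (fun i => rfl)
      rw [← this, Fin.sum_univ_three]
      rfl
    have ha := hx.1 a
    have hb := hx.1 b
    have hc := hx.1 c
    have h27 := amgm3 ha hb hc hsum
    have hp : 0 ≤ x a * x b * x c := mul_nonneg (mul_nonneg ha hb) hc
    unfold Qf
    rw [Q3_restrict (cyc D) e hinj x x x hoff hoff hoff]
    unfold Q3
    have hb : ∀ i j k : Fin 3, (if cyc D (e i) (e j) (e k) then
        (x ∘ e) i * (x ∘ e) j * (x ∘ e) k else 0) ≤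
        (if i ≠ j ∧ j ≠ k ∧ i ≠ k then x a * x b * x c else 0) := by
      intro i j k
      by_cases hd : i ≠ j ∧ j ≠ k ∧ i ≠ k
      · rw [if_pos hd]
        have he : (x ∘ e) i * (x ∘ e) j * (x ∘ e) k = x a * x b * x c := by
          have e0 : (x ∘ e) 0 = x a := rfl
          have e1 : (x ∘ e) 1 = x b := rfl
          have e2 : (x ∘ e) 2 = x c := rfl
          rcases perm3 i j k hd with ⟨rfl, rfl, rfl⟩ | ⟨rfl, rfl, rfl⟩ | ⟨rfl, rfl, rfl⟩ |
            ⟨rfl, rfl, rfl⟩ | ⟨rfl, rfl, rfl⟩ | ⟨rfl, rfl, rfl⟩ <;>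
          · rw [e0, e1, e2] <;> ring
        split_ifs
        · exact le_of_eq he
        · exact hp
      · rw [if_neg hd, if_neg]
        intro hcyc
        apply hd
        exact ⟨fun h => hcyc.1 (by rw [h]), fun h => hcyc.2.1 (by rw [h]),
          fun h => hcyc.2.2.1 (by rw [h])⟩
    calc _ ≤ ∑ i : Fin 3, ∑ j : Fin 3, ∑ k : Fin 3,
          (if i ≠ j ∧ j ≠ k ∧ i ≠ k then x a * x b * x c else 0) :=
          Finset.sum_le_sum fun i _ => Finset.sum_le_sum fun j _ =>
            Finset.sum_le_sum fun k _ => hb i j k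
      _ = ((∑ i : Fin 3, ∑ j : Fin 3, ∑ k : Fin 3,
          (if i ≠ j ∧ j ≠ k ∧ i ≠ k then (1 : ℕ) else 0) : ℕ) : ℝ) * (x a * x b * x c) := by
          push_cast
          simp only [Finset.sum_mul]
          refine Finset.sum_congr rfl fun i _ => Finset.sum_congr rfl fun j _ =>
            Finset.sum_congr rfl fun k _ => ?_
          split_ifs <;> simp
      _ = 6 * (x a * x b * x c) := by
          rw [sum6]
          norm_num
      _ ≤ 2 / 9 := by linarith
  · have h2 : (supp x).card ≤ 2 := by omega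
    have : Qf (cyc D) x = 0 := by
      unfold Qf Q3
      refine Finset.sum_eq_zero fun a _ => Finset.sum_eq_zero fun b _ =>
        Finset.sum_eq_zero fun c _ => ?_
      by_cases hc : cyc D a b c
      · rw [if_pos hc]
        by_contra hne
        have ha : x a ≠ 0 := fun h => hne (by rw [h]; ring)
        have hb : x b ≠ 0 := fun h => hne (by rw [h]; ring)
        have hc' : x c ≠ 0 := fun h => hne (by rw [h]; ring)
        have hsub : ({a, b, c} : Finset V) ⊆ supp x := by
          intro v hv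
          simp only [Finset.mem_insert, Finset.mem_singleton] at hv
          simp only [supp, Finset.mem_filter, Finset.mem_univ, true_and]
          rcases hv with rfl | rfl | rfl <;> assumption
        have h5 := Finset.card_le_card hsub
        rw [Finset.card_eq_three.mpr ⟨a, b, c, hc.1, hc.2.2.1, hc.2.1, rfl⟩] at h5
        omega
      · rw [if_neg hc]
    rw [this]
    norm_num

/-- The Turán bound. -/
theorem turan {V : Type*} [Fintype V] (D : V → V → Prop) (hfree : Free (cyc D)) {y : V → ℝ}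
    (hy : IsW y) : Qf (cyc D) y ≤ 2 / 9 := by
  have hne : Nonempty V := by
    by_contra hcon
    rw [not_nonempty_iff] at hcon
    have := hy.2
    rw [Finset.univ_eq_empty, Finset.sum_empty] at this
    norm_num at this
  obtain ⟨x, hx⟩ := exists_opt (cyc D)
  refine (hx.2.1 y hy).trans ?_
  by_cases hs : (supp x).card ≤ 3
  · exact small_supp D hx.1 hs
  · exfalso
    let W := {v : V // x v ≠ 0}
    have hcardW : Fintype.card W = (supp x).card := by
      rw [Fintype.card_subtype]
      rfl
    let DW : W → W → Prop := fun a b => D a.1 b.1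
    have hDW : ∀ a b c : W, cyc DW a b c ↔ cyc D a.1 b.1 c.1 := by
      intro a b c
      have hne : ∀ u v : W, u ≠ v ↔ u.1 ≠ v.1 := fun u v => Subtype.coe_injective.ne_iff.symm
      unfold cyc
      rw [hne, hne, hne]
    have hcov : ∀ a b : W, a ≠ b → ∃ c, cyc DW a b c := by
      intro a b hab
      obtain ⟨k, hk, hc⟩ := opt_cover (cyc_sym D) (cyc_irr D) hx a.2 b.2
        (fun h => hab (Subtype.ext h))
      exact ⟨⟨k, hk⟩, (hDW _ _ _).mpr hc⟩
    have hfreeW : Free (cyc DW) := by
      constructor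
      · intro h hh
        exact hfree.k4 (fun i => (h i).1) fun t ht => (hDW _ _ _).mp (hh t ht)
      · intro h hh
        exact hfree.f32 (fun i => (h i).1) fun t ht => (hDW _ _ _).mp (hh t ht)
      · intro h hh
        exact hfree.c5 (fun i => (h i).1) fun t ht => (hDW _ _ _).mp (hh t ht)
      · intro h hh
        exact hfree.h7 (fun i => (h i).1) fun t ht => (hDW _ _ _).mp (hh t ht)
    obtain ⟨T, hT, hyp⟩ := exists_tour DW hcov hfreeW
    have h4 : Fintype.card (Fin 4) ≤ Fintype.card W := by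
      rw [hcardW, Fintype.card_fin]
      omega
    obtain ⟨f⟩ := Function.Embedding.nonempty_of_card_le h4
    obtain ⟨F, hF, hsurj⟩ := classify hyp (a := f 0) (b := f 1) (c := f 2) (d := f 3)
      (f.injective.ne (by decide)) (f.injective.ne (by decide)) (f.injective.ne (by decide))
      (f.injective.ne (by decide)) (f.injective.ne (by decide)) (f.injective.ne (by decide))
    let e : Fin 6 → V := fun i => (F i).1
    have hFne : ∀ i j : Fin 6, i ≠ j → F i ≠ F j := by
      intro i j hij he
      have h1 := hF i i.2 j j.2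
      have h2 := hF j j.2 i i.2
      rw [he] at h1 h2
      have hP : ∀ i j : Fin 6, i ≠ j → P7 i j = true ∨ P7 j i = true := by decide +kernel
      rcases hP i j hij with h3 | h3
      · exact hyp.irr _ (h1.mpr h3)
      · exact hyp.irr _ (h2.mpr h3)
    have hinj : Function.Injective e := by
      intro i j hij
      by_contra hne
      exact hFne i j hne (Subtype.ext hij)
    have hoff : ∀ v, v ∉ Set.range e → x v = 0 := by
      intro v hv
      by_contra hne
      obtain ⟨i, hi, he⟩ := hsurj ⟨v, hne⟩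
      apply hv
      refine ⟨⟨i, hi⟩, ?_⟩
      simp only [e]
      rw [← he]
    let d : V → ℝ := fun v => if h : ∃ i, e i = v then (eps6 h.choose : ℝ) else 0
    have hde : ∀ i, d (e i) = (eps6 i : ℝ) := by
      intro i
      have h : ∃ j, e j = e i := ⟨i, rfl⟩
      simp only [d]
      rw [dif_pos h, hinj h.choose_spec]
    have hdoff : ∀ v, v ∉ Set.range e → d v = 0 := by
      intro v hv
      simp only [d]
      rw [dif_neg]
      exact hv
    have hg : ∀ i j k : Fin 6, cyc D (e i) (e j) (e k) ↔ cyc6 i j k = true := by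
      intro i j k
      rw [← cyc6_iff hyp.irr hF i j k, hT, hDW]
    have hgeq : (fun i j k : Fin 6 => cyc D (e i) (e j) (e k)) =
        (fun i j k : Fin 6 => cyc6 i j k = true) := by
      funext i j k
      exact propext (hg i j k)
    have hdcomp : d ∘ e = fun i : Fin 6 => (eps6 i : ℝ) := by
      funext i
      exact hde i
    have hdsum : ∑ v, d v = 0 := by
      have := Fintype.sum_of_injective e hinj (fun i => (eps6 i : ℝ)) d hdoff
        (fun i => (hde i).symm)
      rw [← this]
      have h2 := eps_sum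
      exact_mod_cast h2
    refine no_affine (cyc_sym D) hx (d := d) ⟨e 0, ?_⟩ hdsum ?_ ?_ ?_
    · rw [hde]
      have : eps6 ((0 : Fin 6) : ℕ) = 1 := by decide
      rw [this]
      norm_num
    · intro v hv
      apply hdoff
      rintro ⟨i, rfl⟩
      exact (F i).2 hv
    · rw [Q3_restrict (cyc D) e hinj x d d hoff hdoff hdoff, hgeq, hdcomp]
      exact Qflat _
    · rw [Q3_restrict (cyc D) e hinj d d d hdoff hdoff hdoff, hgeq, hdcomp]
      exact Qflat _

end Pool.Agent.H31Jump
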