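import Pool.Agent.H31Jump.Ord
import Pool.Agent.H31Jump.Turan

/-! Supersaturation: many maps pull the digraph back to a non-free one. -/

set_option autoImplicit false

open scoped Classical

namespace Pool.Agent.H31Jump

open Finset

theorem card_marg {V : Type*} [Fintype V] {k m : ℕ} (p : Fin k → Fin m)
    (hp : Function.Injective p) (P : (Fin k → V) → Prop) :
    ((univ : Finset (Fin m → V)).filter fun f => P (f ∘ p)).card =
      (univ.filter P).card * (Fintype.card V) ^ (m - k) := by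
  let E : (Fin m → V) ≃ (Fin k → V) × ({i // ¬ i ∈ Set.range p} → V) :=
    (Equiv.piEquivPiSubtypeProd (· ∈ Set.range p) (fun _ => V)).trans
      (Equiv.prodCongr (Equiv.arrowCongr (Equiv.ofInjective p hp).symm (Equiv.refl V))
        (Equiv.refl _))
  have hE : ∀ f, (E f).1 = f ∘ p := by
    intro f
    funext i
    rfl
  have h1 : ((univ : Finset (Fin m → V)).filter fun f => P (f ∘ p)).card =
      ((univ : Finset ((Fin k → V) × ({i // ¬ i ∈ Set.range p} → V))).filter
        fun x => P x.1).card := by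
    apply card_equiv E
    intro f
    simp only [mem_filter, mem_univ, true_and]
    rw [hE]
  have h2 : ((univ : Finset ((Fin k → V) × ({i // ¬ i ∈ Set.range p} → V))).filter
        fun x => P x.1) = (univ.filter P) ×ˢ univ := by
    ext x
    simp
  rw [h1, h2, card_product, card_univ, Fintype.card_fun]
  congr 2
  rw [Fintype.card_subtype_compl, Fintype.card_fin]
  congr 1
  have := Set.card_range_of_injective hp
  rw [Fintype.card_fin] at this
  exact (Fintype.card_congr (Equiv.refl _)).trans this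

theorem count_triple {V : Type*} [Fintype V] [DecidableEq V] {m : ℕ} (g : V → V → V → Prop) {i j l : Fin m}
    (hij : i ≠ j) (hjl : j ≠ l) (hil : i ≠ l) :
    ((univ : Finset (Fin m → V)).filter fun f => g (f i) (f j) (f l)).card =
      (ordT g univ).card * (Fintype.card V) ^ (m - 3) := by
  have hinj : Function.Injective (![i, j, l] : Fin 3 → Fin m) := by
    intro a b hab
    fin_cases a <;> fin_cases b <;> simp_all [hij.symm, hjl.symm, hil.symm]
  have h1 := card_marg (V := V) ![i, j, l] hinj (fun u => g (u 0) (u 1) (u 2))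
  have h2 : ((univ : Finset (Fin 3 → V)).filter fun u => g (u 0) (u 1) (u 2)).card =
      (ordT g univ).card := by
    refine card_nbij' (fun u => (u 0, u 1, u 2)) (fun p => ![p.1, p.2.1, p.2.2]) ?_ ?_ ?_ ?_
    · intro u hu
      simp only [coe_filter, mem_univ, true_and, Set.mem_ofPred_eq, ordT] at hu ⊢
      tauto
    · intro p hp
      simp only [coe_filter, mem_univ, true_and, Set.mem_ofPred_eq, ordT] at hp ⊢
      simpa using hp
    · intro u hu
      funext a
      fin_cases a <;> rfl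
    · intro p hp
      rfl
  rw [← h2, ← h1]
  rfl

/-- The pulled back digraph. -/
def pull {V : Type*} (D : V → V → Prop) {m : ℕ} (f : Fin m → V) : Fin m → Fin m → Prop :=
  fun i j => D (f i) (f j) ∧ f i ≠ f j

theorem cyc_pull {V : Type*} (D : V → V → Prop) {m : ℕ} (f : Fin m → V) (i j l : Fin m) :
    cyc (pull D f) i j l ↔ cyc D (f i) (f j) (f l) := by
  unfold cyc pull
  constructor
  · rintro ⟨_, _, _, h | h⟩
    · exact ⟨h.1.2, h.2.1.2, h.2.2.2.symm, Or.inl ⟨h.1.1, h.2.1.1, h.2.2.1⟩⟩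
    · exact ⟨h.1.2.symm, h.2.1.2.symm, h.2.2.2, Or.inr ⟨h.1.1, h.2.1.1, h.2.2.1⟩⟩
  · rintro ⟨h1, h2, h3, h4⟩
    refine ⟨fun h => h1 (by rw [h]), fun h => h2 (by rw [h]), fun h => h3 (by rw [h]), ?_⟩
    rcases h4 with h | h
    · exact Or.inl ⟨⟨h.1, h1⟩, ⟨h.2.1, h2⟩, ⟨h.2.2, h3.symm⟩⟩
    · exact Or.inr ⟨⟨h.1, h1.symm⟩, ⟨h.2.1, h2.symm⟩, ⟨h.2.2, h3⟩⟩

theorem turan_count {m : ℕ} (hm : 0 < m) (D : Fin m → Fin m → Prop) (hfree : Free (cyc D)) :
    ((ordT (cyc D) univ).card : ℝ) ≤ 2 / 9 * (m : ℝ) ^ 3 := by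
  have hm0 : (0 : ℝ) < m := by exact_mod_cast hm
  have hW : IsW (fun _ : Fin m => (1 : ℝ) / m) := by
    refine ⟨fun _ => by positivity, ?_⟩
    rw [sum_const, card_univ, Fintype.card_fin, nsmul_eq_mul]
    field_simp
  have h1 := turan D hfree hW
  have h2 : Qf (cyc D) (fun _ : Fin m => (1 : ℝ) / m) =
      ((ordT (cyc D) univ).card : ℝ) / (m : ℝ) ^ 3 := by
    unfold Qf Q3 ordT
    rw [card_filter]
    push_cast
    rw [Fintype.sum_prod_type, sum_div]
    refine sum_congr rfl fun a _ => ?_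
    rw [Fintype.sum_prod_type, sum_div]
    refine sum_congr rfl fun b _ => ?_
    rw [sum_div]
    refine sum_congr rfl fun c _ => ?_
    simp only [mem_univ, and_true]
    split_ifs
    · field_simp
    · simp
  rw [h2, div_le_iff₀ (by positivity)] at h1
  exact h1

/-- The number of ordered triples of distinct elements. -/
theorem card_distinct (m : ℕ) :
    (ordT (fun a b c : Fin m => a ≠ b ∧ b ≠ c ∧ a ≠ c) univ).card = 6 * m.choose 3 := by
  have hD : Desc (powersetCard 3 (univ : Finset (Fin m)))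
      (fun a b c : Fin m => a ≠ b ∧ b ≠ c ∧ a ≠ c) := by
    refine ⟨fun e he => (mem_powersetCard.mp he).2, fun a b c => ?_⟩
    constructor
    · rintro ⟨h1, h2, h3⟩
      refine ⟨h1, h2, h3, ?_⟩
      rw [mem_powersetCard]
      exact ⟨subset_univ _, card_eq_three.mpr ⟨a, b, c, h1, h3, h2, rfl⟩⟩
    · rintro ⟨h1, h2, h3, _⟩
      exact ⟨h1, h2, h3⟩
  rw [ord_card hD]
  congr 1
  have : (powersetCard 3 (univ : Finset (Fin m))).filter (fun e => e ⊆ univ) =
      powersetCard 3 univ := by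
    apply filter_true_of_mem
    intro e _
    exact subset_univ _
  rw [this, card_powersetCard, card_univ, Fintype.card_fin]

theorem six_choose_lower {η : ℝ} (hη : 0 < η) {n : ℕ} (hn : 6 / η ≤ n) (hn2 : 2 ≤ n) :
    (1 - η) * (n : ℝ) ^ 3 ≤ 6 * ((n.choose 3 : ℕ) : ℝ) := by
  have h1 := Nat.pow_le_choose (α := ℝ) 3 n
  have h6 : ((3 : ℕ).factorial : ℝ) = 6 := by norm_num [Nat.factorial]
  rw [h6] at h1
  have h2 : ((n + 1 - 3 : ℕ) : ℝ) = n - 2 := by
    rw [Nat.cast_sub (by omega)]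
    push_cast
    ring
  rw [h2] at h1
  rw [div_le_iff₀ hη] at hn
  have hn0 : (2 : ℝ) ≤ n := by exact_mod_cast hn2
  have h3 : ((n : ℝ) - 2) ^ 3 ≤ 6 * ((n.choose 3 : ℕ) : ℝ) := by linarith
  refine le_trans ?_ h3
  have h4 : η * (n : ℝ) ^ 3 ≥ 6 * (n : ℝ) ^ 2 := by nlinarith [sq_nonneg (n : ℝ)]
  nlinarith

theorem super {ε : ℝ} (hε : 0 < ε) (hε1 : ε ≤ 1) : ∃ m n₀ : ℕ, 0 < m ∧ ∀ n ≥ n₀,
    ∀ D : Fin n → Fin n → Prop,
      (2 / 9 + ε) * (6 * ((n.choose 3 : ℕ) : ℝ)) ≤ ((ordT (cyc D) univ).card : ℝ) →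
      ε / 2 * (n : ℝ) ^ m ≤
        (((univ : Finset (Fin m → Fin n)).filter fun f => ¬ Free (cyc (pull D f))).card : ℝ) := by
  set η : ℝ := ε / 8 with hη
  have hη0 : 0 < η := by positivity
  refine ⟨max 3 ⌈6 / η⌉₊, max 3 ⌈6 / η⌉₊, by omega, ?_⟩
  intro n hn D hq
  set m := max 3 ⌈6 / η⌉₊ with hm
  have hm3 : 3 ≤ m := le_max_left _ _
  have hn3 : 3 ≤ n := hm3.trans hn
  have hmη : 6 / η ≤ m := (Nat.le_ceil _).trans (by exact_mod_cast le_max_right _ _)
  have hnη : 6 / η ≤ n := hmη.trans (by exact_mod_cast hn)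
  have hm0 : (0 : ℝ) < m := by
    have : 0 < m := by omega
    exact_mod_cast this
  have hn0 : (0 : ℝ) < n := by
    have : 0 < n := by omega
    exact_mod_cast this
  set F := (univ : Finset (Fin m → Fin n)).filter fun f => ¬ Free (cyc (pull D f)) with hF
  set q : ℝ := ((ordT (cyc D) univ).card : ℝ) with hqdef
  -- the double count
  have hdc : ∑ f : Fin m → Fin n, ((ordT (cyc (pull D f)) univ).card : ℝ) ≥
      6 * ((m.choose 3 : ℕ) : ℝ) * (q * (n : ℝ) ^ (m - 3)) := by
    have h1 : ∀ f : Fin m → Fin n, ((ordT (cyc (pull D f)) univ).card : ℝ) =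
        ∑ p : Fin m × Fin m × Fin m, (if cyc D (f p.1) (f p.2.1) (f p.2.2) then (1 : ℝ) else 0) := by
      intro f
      unfold ordT
      rw [card_filter]
      push_cast
      refine sum_congr rfl fun p _ => ?_
      simp only [mem_univ, and_true, cyc_pull]
    simp only [h1]
    rw [sum_comm]
    have h2 : ∑ p ∈ ordT (fun a b c : Fin m => a ≠ b ∧ b ≠ c ∧ a ≠ c) univ,
        ∑ f : Fin m → Fin n, (if cyc D (f p.1) (f p.2.1) (f p.2.2) then (1 : ℝ) else 0) =
        6 * ((m.choose 3 : ℕ) : ℝ) * (q * (n : ℝ) ^ (m - 3)) := by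
      rw [sum_congr rfl (g := fun _ => q * (n : ℝ) ^ (m - 3)), sum_const, card_distinct,
        nsmul_eq_mul]
      · push_cast
        ring
      · intro p hp
        simp only [ordT, mem_filter, mem_univ, true_and, and_true] at hp
        have h3 := count_triple (V := Fin n) (cyc D) hp.1 hp.2.1 hp.2.2
        rw [card_filter, Fintype.card_fin] at h3
        rw [hqdef]
        exact_mod_cast h3
    rw [← h2]
    apply sum_le_sum_of_subset_of_nonneg (subset_univ _)
    intro p _ _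
    apply sum_nonneg
    intro f _
    split_ifs <;> norm_num
  have hup : ∑ f : Fin m → Fin n, ((ordT (cyc (pull D f)) univ).card : ℝ) ≤
      (m : ℝ) ^ 3 * F.card + 2 / 9 * (m : ℝ) ^ 3 * (n : ℝ) ^ m := by
    have h1 : ∀ f : Fin m → Fin n, ((ordT (cyc (pull D f)) univ).card : ℝ) ≤
        (if f ∈ F then (m : ℝ) ^ 3 else 0) + 2 / 9 * (m : ℝ) ^ 3 := by
      intro f
      by_cases hf : f ∈ F
      · rw [if_pos hf]
        have h2 : (ordT (cyc (pull D f)) univ).card ≤ m ^ 3 := by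
          refine (card_le_univ _).trans ?_
          rw [Fintype.card_prod, Fintype.card_prod, Fintype.card_fin]
          apply le_of_eq
          ring
        have h3 : ((ordT (cyc (pull D f)) univ).card : ℝ) ≤ (m : ℝ) ^ 3 := by exact_mod_cast h2
        have : 0 ≤ 2 / 9 * (m : ℝ) ^ 3 := by positivity
        linarith
      · rw [if_neg hf]
        have h2 : Free (cyc (pull D f)) := by
          by_contra hcon
          exact hf (by rw [hF]; simp [hcon])
        have h3 := turan_count (by omega) (pull D f) h2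
        linarith
    refine (sum_le_sum fun f _ => h1 f).trans ?_
    rw [sum_add_distrib, sum_ite_mem, univ_inter, sum_const, sum_const, card_univ,
      Fintype.card_fun, Fintype.card_fin, Fintype.card_fin]
    simp only [nsmul_eq_mul]
    push_cast
    apply le_of_eq
    ring
  have hmc := six_choose_lower hη0 hmη (by omega)
  have hnc := six_choose_lower hη0 hnη (by omega)
  have hη1 : 0 ≤ 1 - η := by rw [hη]; linarith
  have hq2 : (2 / 9 + ε) * ((1 - η) * (n : ℝ) ^ 3) ≤ q :=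
    (mul_le_mul_of_nonneg_left hnc (by positivity)).trans hq
  have hpow : (n : ℝ) ^ m = (n : ℝ) ^ 3 * (n : ℝ) ^ (m - 3) := by
    rw [← pow_add]
    congr 1
    omega
  have h5 : (1 - η) * (m : ℝ) ^ 3 * ((2 / 9 + ε) * ((1 - η) * (n : ℝ) ^ 3) * (n : ℝ) ^ (m - 3)) ≤
      6 * ((m.choose 3 : ℕ) : ℝ) * (q * (n : ℝ) ^ (m - 3)) := by
    apply mul_le_mul hmc _ (by positivity) (by positivity)
    exact mul_le_mul_of_nonneg_right hq2 (by positivity)
  have h6 : (1 - η) * (m : ℝ) ^ 3 * ((2 / 9 + ε) * ((1 - η) * (n : ℝ) ^ 3) * (n : ℝ) ^ (m - 3)) =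
      ((1 - η) ^ 2 * (2 / 9 + ε)) * ((m : ℝ) ^ 3 * (n : ℝ) ^ m) := by
    rw [hpow]; ring
  have h7 : 2 / 9 + ε / 2 ≤ (1 - η) ^ 2 * (2 / 9 + ε) := by
    rw [hη]
    nlinarith [sq_nonneg ε, mul_nonneg hε.le (sub_nonneg.mpr hε1),
      mul_nonneg (mul_nonneg hε.le hε.le) hε.le]
  have hMN : 0 < (m : ℝ) ^ 3 * (n : ℝ) ^ m := by positivity
  have h8 := mul_le_mul_of_nonneg_right h7 hMN.le
  have h9 : ε / 2 * (n : ℝ) ^ m * (m : ℝ) ^ 3 ≤ F.card * (m : ℝ) ^ 3 := by
    have : (2 / 9 + ε / 2) * ((m : ℝ) ^ 3 * (n : ℝ) ^ m) ≤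
        (m : ℝ) ^ 3 * F.card + 2 / 9 * (m : ℝ) ^ 3 * (n : ℝ) ^ m := by
      linarith
    linarith
  exact le_of_mul_le_mul_right h9 (by positivity)

end Pool.Agent.H31Jump
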