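import Mathlib

/-! Finite tables for the classification of tournaments without the patterns A and B
all of whose arcs lie in cyclic triangles. -/

set_option autoImplicit false

namespace Pool.Agent.H31Jump

/-- The arc relation of the Paley tournament on seven points. -/
def P7 (i j : ℕ) : Bool :=
  let d := (j + 7 - i) % 7
  d == 1 || d == 2 || d == 4

/-- Pattern A: a cyclic triangle `0 → 1 → 2 → 0` and `3 → 4 → {0,1,2} → 3`. -/
def apat (i j : ℕ) : Bool :=
  (i == 0 && j == 1) || (i == 1 && j == 2) || (i == 2 && j == 0) || (i == 3 && j == 4) ||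
  (i == 4 && decide (j < 3)) || (decide (i < 3) && j == 3)

/-- Pattern B: the regular tournament on five points. -/
def bpat (i j : ℕ) : Bool :=
  let d := (j + 5 - i) % 5
  d == 1 || d == 2

/-- Octal digit. -/
def dig (c k : ℕ) : ℕ := (c / 8 ^ k) % 8

/-- Check of a witness: `c / 2` codes five positions, the parity chooses the pattern. -/
def isBad (N : ℕ) (M : ℕ → ℕ → Bool) (c : ℕ) : Bool :=
  (List.range 5).all fun i => decide (dig (c / 2) i < N) &&
    (List.range 5).all fun j =>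
      M (dig (c / 2) i) (dig (c / 2) j) == (if c % 2 = 0 then apat i j else bpat i j)

/-- The tournament on `0..5` (Paley), `6` (out-neighbours coded by `p`) and `7`
(out-neighbours coded by `q`), with `6 → 7` iff `r`. -/
def M8 (p q : ℕ) (r : Bool) (i j : ℕ) : Bool :=
  if i < 6 then (if j < 6 then P7 i j else if j = 6 then !(p.testBit i) else !(q.testBit i))
  else if i = 6 then (if j < 6 then p.testBit j else if j = 6 then false else r)
  else (if j < 6 then q.testBit j else if j = 6 then !r else false)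

/-- Witnesses for one additional vertex. -/
def tab1 : List ℕ := [
   0, 6690, 15028, 26432, 0, 0, 35666, 26432, 31424, 6690, 31424, 0, 31424, 53664, 31424, 53664,
   0, 45856, 15028, 45856, 13108, 13108, 0, 0, 0, 45856, 3874, 45856, 0, 9046, 54834, 54834,
   0, 6690, 0, 51856, 27360, 0, 27360, 26432, 22342, 6690, 3874, 51856, 0, 53664, 0, 53664,
   5730, 0, 0, 51856, 27360, 13108, 27360, 0, 5730, 0, 3874, 51856, 5730, 0, 0, 0]

/-- Witnesses for the covering vertices of an arc, type 4. -/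
def tabc4 : List ℕ := [
   0, 7714, 0, 26560, 0, 27616, 0, 26560, 0, 7714, 0, 63888, 0, 61856, 0, 63888,
   0, 45984, 0, 45984, 0, 27616, 0, 27616, 0, 45984, 0, 63888, 0, 9174, 0, 63888,
   0, 7714, 0, 60048, 0, 27616, 0, 64144, 0, 7714, 0, 63888, 0, 61856, 0, 63888,
   0, 64192, 0, 60048, 0, 64192, 0, 64144, 0, 64192, 0, 63888, 0, 64192, 0, 63888]

/-- Witnesses for the covering vertices of an arc, type 16. -/
def tabc16 : List ℕ := [
   0, 0, 0, 0, 0, 0, 0, 0, 32448, 7714, 32448, 63888, 32448, 61856, 32448, 63888,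
   0, 0, 0, 0, 0, 0, 0, 0, 13286, 45984, 4002, 63888, 13284, 63904, 63026, 63888,
   0, 0, 0, 0, 0, 0, 0, 0, 22470, 7714, 4002, 63888, 64180, 61856, 64180, 63888,
   0, 0, 0, 0, 0, 0, 0, 0, 5746, 13286, 4002, 63888, 5746, 63904, 64180, 63888]

/-- Witnesses for the covering vertices of an arc, type 32. -/
def tabc32 : List ℕ := [
   0, 0, 16052, 26560, 0, 0, 35794, 26560, 0, 0, 32448, 63888, 0, 0, 32448, 63888,
   0, 0, 16052, 45984, 0, 0, 64034, 64034, 0, 0, 32480, 63888, 0, 0, 32480, 63888,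
   0, 0, 6114, 60048, 0, 0, 27376, 26560, 0, 0, 4002, 63888, 0, 0, 6114, 63888,
   0, 0, 6114, 60048, 0, 0, 27376, 64034, 0, 0, 4002, 63888, 0, 0, 64034, 63888]

/-- Witnesses for the covering vertices of an arc, type 0. -/
def tabc0 : List ℕ := [
   0, 7714, 0, 26560, 0, 0, 0, 26560, 0, 7714, 0, 63888, 0, 61856, 0, 63888,
   0, 45984, 0, 45984, 0, 13236, 0, 64034, 0, 45984, 0, 63888, 0, 63904, 0, 63888,
   0, 7714, 0, 60048, 0, 0, 0, 64144, 0, 7714, 0, 63888, 0, 61856, 0, 63888,
   0, 64192, 0, 60048, 0, 64192, 0, 64144, 0, 64192, 0, 63888, 0, 63904, 0, 63888]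

/-- Witnesses for the covering vertices of an arc, type 55. -/
def tabc55 : List ℕ := [
   56976, 7714, 57024, 26560, 56976, 27514, 57024, 26560, 56976, 7714, 32448, 63282, 56976, 61856, 32448, 61856,
   56976, 45984, 26480, 45984, 56976, 13236, 26480, 27514, 56976, 45984, 4002, 45984, 56976, 9174, 63026, 63026,
   0, 0, 0, 0, 0, 0, 0, 0, 0, 0, 0, 0, 0, 0, 0, 0,
   0, 0, 0, 0, 0, 0, 0, 0, 0, 0, 0, 0, 0, 0, 0, 0]

/-- Witnesses for the covering vertices of an arc, type 61. -/
def tabc61 : List ℕ := [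
   56736, 7714, 56736, 60176, 0, 0, 0, 0, 32448, 7714, 32448, 60176, 0, 0, 0, 0,
   56736, 45984, 56736, 60176, 0, 0, 0, 0, 13172, 45984, 4002, 60176, 0, 0, 0, 0,
   56736, 7714, 56736, 60048, 0, 0, 0, 0, 22470, 7714, 4002, 60048, 0, 0, 0, 0,
   56736, 13172, 56736, 60048, 0, 0, 0, 0, 5746, 13172, 4002, 60048, 0, 0, 0, 0]

/-- Witnesses for the covering vertices of an arc, type 62. -/
def tabc62 : List ℕ := [
   56866, 7714, 16052, 26560, 56882, 56882, 35794, 26560, 32448, 61920, 32448, 61920, 32448, 61856, 32448, 61856,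
   0, 0, 0, 0, 0, 0, 0, 0, 0, 0, 0, 0, 0, 0, 0, 0,
   56866, 60128, 6008, 60048, 27376, 56882, 27376, 26560, 56866, 61920, 4002, 60048, 3954, 61856, 6008, 61856,
   0, 0, 0, 0, 0, 0, 0, 0, 0, 0, 0, 0, 0, 0, 0, 0]

/-- Witnesses for the covering vertices of an arc, type 63. -/
def tabc63 : List ℕ := [
   56720, 7714, 56736, 26560, 0, 0, 0, 0, 56976, 7714, 32448, 57028, 0, 0, 0, 0,
   56720, 45984, 56736, 45984, 0, 0, 0, 0, 56976, 45984, 4002, 45984, 0, 0, 0, 0,
   56720, 7714, 56736, 60048, 0, 0, 0, 0, 56866, 7714, 4002, 60048, 0, 0, 0, 0,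
   56720, 0, 56736, 60048, 0, 0, 0, 0, 5746, 0, 4002, 60048, 0, 0, 0, 0]

/-- Witnesses for pairs of twins. -/
def tabt : List (ℕ × ℕ × ℕ) := [
   (5, 22, 27504), (5, 24, 6770), (5, 28, 6770), (5, 34, 16180), (5, 44, 32576), (5, 46, 32576),
   (5, 49, 54176), (5, 50, 16180), (5, 57, 54176), (22, 5, 27616), (22, 24, 45940), (22, 28, 15318),
   (22, 34, 60242), (22, 37, 27616), (22, 44, 62260), (22, 46, 62260), (22, 49, 54898), (22, 50, 60242),
   (22, 57, 54898), (23, 24, 45936), (23, 28, 45936), (23, 34, 26480), (23, 37, 27626), (23, 44, 62260),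
   (23, 46, 62260), (23, 49, 54898), (23, 50, 26480), (23, 57, 54898), (24, 5, 7778), (24, 22, 46052),
   (24, 23, 46048), (24, 34, 31472), (24, 37, 7778), (24, 44, 4068), (24, 46, 4066), (24, 49, 13174),
   (24, 50, 31472), (28, 5, 7778), (28, 22, 16214), (28, 23, 46048), (28, 34, 31472), (28, 37, 7778),
   (28, 44, 55238), (28, 46, 4066), (28, 49, 13172), (28, 50, 31472), (28, 57, 13172), (34, 5, 15284),
   (34, 22, 52178), (34, 23, 26592), (34, 24, 32480), (34, 28, 32480), (34, 37, 15284), (34, 44, 6002),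
   (34, 49, 7970), (34, 57, 7970), (37, 22, 27504), (37, 23, 27514), (37, 24, 6770), (37, 28, 6770),
   (37, 34, 16180), (37, 44, 32576), (37, 46, 32576), (37, 49, 54176), (37, 50, 16180), (37, 57, 54176),
   (44, 5, 31680), (44, 22, 54196), (44, 23, 54196), (44, 24, 3956), (44, 28, 63302), (44, 34, 6114),
   (44, 37, 31680), (44, 49, 60128), (44, 50, 6114), (44, 57, 60128), (46, 5, 31680), (46, 22, 54196),
   (46, 23, 54196), (46, 24, 3954), (46, 28, 3954), (46, 37, 31680), (46, 49, 60128), (46, 50, 6120),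
   (46, 57, 60128), (49, 5, 62240), (49, 22, 63074), (49, 23, 63074), (49, 24, 13286), (49, 28, 13284),
   (49, 34, 7074), (49, 37, 62240), (49, 44, 51952), (49, 46, 51952), (49, 50, 7074), (50, 5, 15284),
   (50, 22, 52178), (50, 23, 26592), (50, 24, 32480), (50, 28, 32480), (50, 37, 15284), (50, 44, 6002),
   (50, 46, 6008), (50, 49, 7970), (50, 57, 7970), (57, 5, 62240), (57, 22, 63074), (57, 23, 63074),
   (57, 28, 13284), (57, 34, 7074), (57, 37, 62240), (57, 44, 51952), (57, 46, 51952), (57, 50, 7074)]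

/-- The vertex of which a type is a twin (types listed only). -/
def twinOf (p : ℕ) : ℕ :=
  if p = 22 ∨ p = 23 then 0 else if p = 44 ∨ p = 46 then 1 else if p = 24 ∨ p = 28 then 2
  else if p = 49 ∨ p = 57 then 3 else if p = 34 ∨ p = 50 then 4 else 5

/-- The twin types. -/
def twins : List ℕ := [5, 22, 23, 24, 28, 34, 37, 44, 46, 49, 50, 57]

theorem tab1_ok : ∀ p < 64, isBad 7 (M8 p 0 false) (tab1.getD p 0) = true ∨
    p = 0 ∨ p = 4 ∨ p = 16 ∨ p = 32 ∨ p = 55 ∨ p = 61 ∨ p = 62 ∨ p = 63 ∨ p = 11 ∨ p ∈ twins := by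
  decide +kernel

theorem tabc4_ok : ∀ q < 64, q.testBit 0 = true →
    isBad 8 (M8 4 q true) (tabc4.getD q 0) = true := by
  decide +kernel

theorem tabc16_ok : ∀ q < 64, q.testBit 3 = true →
    isBad 8 (M8 16 q true) (tabc16.getD q 0) = true := by
  decide +kernel

theorem tabc32_ok : ∀ q < 64, q.testBit 1 = true →
    isBad 8 (M8 32 q true) (tabc32.getD q 0) = true := by
  decide +kernel

theorem tabc0_ok : ∀ q < 64, q.testBit 0 = true →
    isBad 8 (M8 0 q true) (tabc0.getD q 0) = true ∨ q = 5 ∨ q = 37 := by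
  decide +kernel

theorem tabc55_ok : ∀ q < 64, q.testBit 5 = false →
    isBad 8 (M8 55 q false) (tabc55.getD q 0) = true := by
  decide +kernel

theorem tabc61_ok : ∀ q < 64, q.testBit 2 = false →
    isBad 8 (M8 61 q false) (tabc61.getD q 0) = true := by
  decide +kernel

theorem tabc62_ok : ∀ q < 64, q.testBit 4 = false →
    isBad 8 (M8 62 q false) (tabc62.getD q 0) = true := by
  decide +kernel

theorem tabc63_ok : ∀ q < 64, q.testBit 2 = false →
    isBad 8 (M8 63 q false) (tabc63.getD q 0) = true ∨ q = 49 ∨ q = 57 := by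
  decide +kernel

/-- Lookup in the table of pairs. -/
def lookt (p q : ℕ) : ℕ := ((tabt.find? fun t => t.1 == p && t.2.1 == q).map fun t => t.2.2).getD 0

theorem tabt_ok : ∀ p ∈ twins, ∀ q ∈ twins, twinOf p ≠ twinOf q →
    isBad 8 (M8 p q (!(P7 (twinOf p) (twinOf q)))) (lookt p q) = true ∨
      (p = 5 ∧ q = 23) ∨ (p = 23 ∧ q = 5) ∨ (p = 24 ∧ q = 57) ∨ (p = 57 ∧ q = 24) ∨
      (p = 34 ∧ q = 46) ∨ (p = 46 ∧ q = 34) := by
  decide +kernel

theorem twin_bits : ∀ p ∈ twins, ∀ j < 6, j ≠ twinOf p → p.testBit j = P7 (twinOf p) j := by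
  decide +kernel

end Pool.Agent.H31Jump
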