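import Pool.Agent.H31Jump.Final

/-! The exact constant: weights for `F₃,₂`. -/

set_option autoImplicit false

open scoped Classical

namespace Pool.Agent.H31Jump

open Finset Filter Topology

/-- The constant. -/
noncomputable def J0 : ℝ := (189 + 15 * √5) / 961

theorem sqrt5_sq : √5 * √5 = 5 := Real.mul_self_sqrt (by norm_num)

theorem sqrt5_lo : (22360 : ℝ) / 10000 < √5 := by
  apply Real.lt_sqrt_of_sq_lt
  norm_num

theorem sqrt5_hi : √5 < (22361 : ℝ) / 10000 := by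
  rw [Real.sqrt_lt' (by norm_num)]
  norm_num

theorem J0_le : J0 ≤ 24 / 100 := by
  have := sqrt5_hi
  unfold J0
  rw [div_le_iff₀ (by norm_num)]
  linarith

theorem J0_gt : (23157 : ℝ) / 100000 < J0 := by
  have := sqrt5_lo
  unfold J0
  rw [lt_div_iff₀ (by norm_num)]
  linarith

theorem wsum_F32_eq (w : Fin 5 → ℕ) : wsum LF32 w =
    6 * (w 0 * w 1 * w 2 + w 0 * w 3 * w 4 + w 1 * w 3 * w 4 + w 2 * w 3 * w 4) := by
  unfold wsum symL
  rw [List.sum_toFinset _ (by decide +kernel)]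
  simp only [LF32, List.flatMap_cons, List.flatMap_nil, List.append_nil, List.cons_append,
    List.nil_append, List.map_cons, List.map_nil, List.sum_cons, List.sum_nil]
  ring

theorem exists_weights {γ : ℝ} (hγ : γ < J0) : ∃ w : Fin 5 → ℕ, (∀ i, 0 < w i) ∧
    γ * (((∑ i, w i : ℕ)) : ℝ) ^ 3 ≤ (wsum LF32 w : ℕ) := by
  set s : ℝ := (6 - √5) / 31 with hs
  set r : ℝ := (13 + 3 * √5) / 62 with hr
  have h5 := sqrt5_sq
  have hlo := sqrt5_lo
  have hhi := sqrt5_hi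
  have hs0 : 0 < s := by rw [hs]; apply div_pos _ (by norm_num); linarith
  have hr0 : 0 < r := by rw [hr]; apply div_pos _ (by norm_num); linarith
  have hsum : 3 * s + 2 * r = 1 := by rw [hs, hr]; ring
  have hJ : 6 * s ^ 3 + 18 * s * r ^ 2 = J0 := by
    rw [hs, hr, J0]
    have e3 : √5 ^ 3 = 5 * √5 := by rw [pow_succ, pow_two, h5]
    ring_nf
    rw [e3]
    ring
  have ts := tendsto_nat_floor_mul_div_atTop (R := ℝ) (a := s) hs0.le
  have tr := tendsto_nat_floor_mul_div_atTop (R := ℝ) (a := r) hr0.le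
  have tG : Tendsto (fun x : ℝ => 6 * ((⌊s * x⌋₊ : ℝ) / x) ^ 3 +
      18 * ((⌊s * x⌋₊ : ℝ) / x) * ((⌊r * x⌋₊ : ℝ) / x) ^ 2 -
      γ * (3 * ((⌊s * x⌋₊ : ℝ) / x) + 2 * ((⌊r * x⌋₊ : ℝ) / x)) ^ 3) atTop
      (𝓝 (6 * s ^ 3 + 18 * s * r ^ 2 - γ * (3 * s + 2 * r) ^ 3)) :=
    ((((ts.pow 3).const_mul 6).add ((ts.const_mul 18).mul (tr.pow 2))).sub
      ((((ts.const_mul 3).add (tr.const_mul 2)).pow 3).const_mul γ))
  have hpos : 0 < 6 * s ^ 3 + 18 * s * r ^ 2 - γ * (3 * s + 2 * r) ^ 3 := by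
    rw [hsum, hJ]
    linarith
  have ev := ((tG.eventually (lt_mem_nhds hpos)).and ((ts.eventually (lt_mem_nhds hs0)).and
    (tr.eventually (lt_mem_nhds hr0)))).and (eventually_gt_atTop (0 : ℝ))
  obtain ⟨x, ⟨h1, h2, h3⟩, h4⟩ := ev.exists
  set a := ⌊s * x⌋₊ with ha
  set b := ⌊r * x⌋₊ with hb
  have ha0 : 0 < a := by
    have : (0 : ℝ) < a := by
      by_contra hcon
      have : (a : ℝ) / x ≤ 0 := div_nonpos_of_nonpos_of_nonneg (not_lt.mp hcon) h4.le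
      linarith
    exact_mod_cast this
  have hb0 : 0 < b := by
    have : (0 : ℝ) < b := by
      by_contra hcon
      have : (b : ℝ) / x ≤ 0 := div_nonpos_of_nonpos_of_nonneg (not_lt.mp hcon) h4.le
      linarith
    exact_mod_cast this
  refine ⟨![a, a, a, b, b], ?_, ?_⟩
  · intro i
    fin_cases i
    · exact ha0
    · exact ha0
    · exact ha0
    · exact hb0
    · exact hb0
  · rw [wsum_F32_eq]
    have e : (∑ i, (![a, a, a, b, b] : Fin 5 → ℕ) i) = 3 * a + 2 * b := by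
      rw [Fin.sum_univ_five]
      simp
      ring
    have e2 : (6 * ((![a, a, a, b, b] : Fin 5 → ℕ) 0 * (![a, a, a, b, b] : Fin 5 → ℕ) 1 *
        (![a, a, a, b, b] : Fin 5 → ℕ) 2 + (![a, a, a, b, b] : Fin 5 → ℕ) 0 *
        (![a, a, a, b, b] : Fin 5 → ℕ) 3 * (![a, a, a, b, b] : Fin 5 → ℕ) 4 +
        (![a, a, a, b, b] : Fin 5 → ℕ) 1 * (![a, a, a, b, b] : Fin 5 → ℕ) 3 *
        (![a, a, a, b, b] : Fin 5 → ℕ) 4 + (![a, a, a, b, b] : Fin 5 → ℕ) 2 *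
        (![a, a, a, b, b] : Fin 5 → ℕ) 3 * (![a, a, a, b, b] : Fin 5 → ℕ) 4)) =
        6 * a ^ 3 + 18 * a * b ^ 2 := by
      simp
      ring
    rw [e, e2]
    push_cast
    have hx3 : 0 < x ^ 3 := by positivity
    have h6 : (6 * ((a : ℝ) / x) ^ 3 + 18 * ((a : ℝ) / x) * ((b : ℝ) / x) ^ 2 -
      γ * (3 * ((a : ℝ) / x) + 2 * ((b : ℝ) / x)) ^ 3) * x ^ 3 =
      6 * (a : ℝ) ^ 3 + 18 * a * b ^ 2 - γ * (3 * a + 2 * b) ^ 3 := by
      field_simp
    have h7 := mul_pos h1 hx3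
    rw [h6] at h7
    linarith

/-- The jump with the exact constant. -/
theorem main_exact {ε : ℝ} (hε : 0 < ε) {t : ℕ} (ht : 3 ≤ t) : ∃ n₀ : ℕ, ∀ n ≥ n₀,
    ∀ (H : Finset (Finset (Fin n))) (D : Fin n → Fin n → Prop), Desc H (cyc D) →
      (2 / 9 + ε) * ((n.choose 3 : ℕ) : ℝ) ≤ (H.card : ℝ) →
      ∃ S : Finset (Fin n), S.card = t ∧
        J0 * ((t.choose 3 : ℕ) : ℝ) ≤ ((H.filter (fun e => e ⊆ S)).card : ℝ) := by
  have hC : (0 : ℝ) < ((t.choose 3 : ℕ) : ℝ) := by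
    exact_mod_cast Nat.choose_pos ht
  have hJ0 : 0 < J0 := lt_trans (by norm_num) J0_gt
  set C : ℝ := ((t.choose 3 : ℕ) : ℝ) with hCdef
  set k : ℕ := ⌈J0 * C⌉₊ with hk
  have h1 : (k : ℝ) < J0 * C + 1 := Nat.ceil_lt_add_one (by positivity)
  have h2 : ((k : ℝ) - 1) / C < J0 := by
    rw [div_lt_iff₀ hC]
    linarith
  obtain ⟨γ, hγ1, hγ2⟩ := exists_between h2
  obtain ⟨w, hw1, hw2⟩ := exists_weights hγ2
  obtain ⟨n₀, h0⟩ := main (hγ2.le.trans J0_le) (good_F32 hw1) hw2 hε ht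
  refine ⟨n₀, fun n hn H D hD hH => ?_⟩
  obtain ⟨S, hS1, hS2⟩ := h0 n hn H D hD hH
  refine ⟨S, hS1, ?_⟩
  rw [div_lt_iff₀ hC] at hγ1
  have h3 : (k : ℝ) - 1 < ((H.filter (fun e => e ⊆ S)).card : ℝ) := lt_of_lt_of_le hγ1 hS2
  have h4 : k ≤ (H.filter (fun e => e ⊆ S)).card := by
    have : (k : ℝ) < ((H.filter (fun e => e ⊆ S)).card : ℝ) + 1 := by linarith
    have h5 : k < (H.filter (fun e => e ⊆ S)).card + 1 := by exact_mod_cast this
    omega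
  have h5 : J0 * C ≤ k := Nat.le_ceil _
  exact h5.trans (by exact_mod_cast h4)

end Pool.Agent.H31Jump
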